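import Pool.Agent.X34.M.M1

set_option autoImplicit false
set_option maxHeartbeats 4000000

/-! # Prime factors of `a ^ p - b ^ p`, least primes congruent to `1` modulo `p` -/

namespace Pool.Agent.X34.M

open Finset Filter
open Pool.Agent.H256R2.SC (ff)

/-- `f` varies slowly -/
theorem ff_le : ∀ᶠ X : ℝ in atTop, ∀ p : ℝ, X ≤ p → p ≤ 3 * X → ff p ≤ 16 * ff X := by
  have t1 := Real.tendsto_log_atTop
  have t2 : Tendsto (fun X : ℝ => Real.log (Real.log X)) atTop atTop := t1.comp t1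
  have t3 : Tendsto (fun X : ℝ => Real.log (Real.log (Real.log X))) atTop atTop := t1.comp t2
  have t4 : Tendsto (fun X : ℝ => Real.log (Real.log (Real.log (Real.log X)))) atTop atTop := t1.comp t3
  filter_upwards [t3.eventually_ge_atTop 2, t4.eventually_ge_atTop 2,
    t2.eventually_ge_atTop 2, t1.eventually_ge_atTop 2, eventually_ge_atTop 4] with X h3 h4 h6 h7 h8
  intro p hp1 hp2
  have hlog3 : Real.log 3 ≤ 2 := by
    have := Real.log_le_sub_one_of_pos (show (0 : ℝ) < 3 by norm_num)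
    linarith
  have hlog2 : Real.log 2 ≤ 1 := by
    have := Real.log_le_sub_one_of_pos (show (0 : ℝ) < 2 by norm_num)
    linarith
  set l1 := Real.log X with hl1
  set l2 := Real.log l1 with hl2
  set l3 := Real.log l2 with hl3
  have hff : ff X = l1 * l2 ^ 2 * Real.log l3 / l3 ^ 2 := rfl
  have hX0 : 0 < X := by linarith
  have hp0 : 0 < p := by linarith
  set m1 := Real.log p with hm1
  have a1 : l1 ≤ m1 := Real.log_le_log hX0 hp1
  have b1 : m1 ≤ 2 * l1 := by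
    have h9 : m1 ≤ Real.log (3 * X) := Real.log_le_log hp0 hp2
    rw [Real.log_mul (by norm_num) hX0.ne'] at h9
    linarith
  set m2 := Real.log m1 with hm2
  have a2 : l2 ≤ m2 := Real.log_le_log (by linarith) a1
  have b2 : m2 ≤ 2 * l2 := by
    have h9 : m2 ≤ Real.log (2 * l1) := Real.log_le_log (by linarith) b1
    rw [Real.log_mul (by norm_num) (by linarith)] at h9
    linarith
  set m3 := Real.log m2 with hm3
  have a3 : l3 ≤ m3 := Real.log_le_log (by linarith) a2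
  have b3 : m3 ≤ 2 * l3 := by
    have h9 : m3 ≤ Real.log (2 * l2) := Real.log_le_log (by linarith) b2
    rw [Real.log_mul (by norm_num) (by linarith)] at h9
    linarith
  set m4 := Real.log m3 with hm4
  have b4 : m4 ≤ 2 * Real.log l3 := by
    have h9 : m4 ≤ Real.log (2 * l3) := Real.log_le_log (by linarith) b3
    rw [Real.log_mul (by norm_num) (by linarith)] at h9
    linarith
  have a4 : 0 ≤ m4 := Real.log_nonneg (by linarith)
  have hffp : ff p = m1 * m2 ^ 2 * m4 / m3 ^ 2 := rfl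
  rw [hffp, hff]
  calc m1 * m2 ^ 2 * m4 / m3 ^ 2 ≤ (2 * l1) * (2 * l2) ^ 2 * (2 * Real.log l3) / l3 ^ 2 := by
        have e1 : 0 < l3 := by linarith
        have e2 : 0 ≤ m1 := by linarith
        have e3 : 0 ≤ m2 := by linarith
        have e4 : 0 ≤ Real.log l3 := by linarith
        have e5 : 0 ≤ l1 := by linarith
        have e6 : 0 ≤ l2 := by linarith
        gcongr
    _ = 16 * (l1 * l2 ^ 2 * Real.log l3 / l3 ^ 2) := by ring

/-- a prime factor of `a ^ p - b ^ p` which does not divide `a - b` is `≡ 1 (mod p)` -/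
theorem dvd_sub_one {p q : ℕ} (hp : p.Prime) (hq : q.Prime) (a b : ℤ) (hab : IsCoprime a b)
    (h : (q : ℤ) ∣ a ^ p - b ^ p) (h1 : ¬ (q : ℤ) ∣ a - b) : (p : ℤ) ∣ (q : ℤ) - 1 := by
  haveI : Fact q.Prime := ⟨hq⟩
  haveI : Fact p.Prime := ⟨hp⟩
  have e1 : (a : ZMod q) ^ p = (b : ZMod q) ^ p := by
    have h2 := (ZMod.intCast_zmod_eq_zero_iff_dvd (a ^ p - b ^ p) q).2 h
    push_cast at h2
    exact sub_eq_zero.1 h2
  have e2 : (a : ZMod q) ≠ (b : ZMod q) := by
    intro h2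
    apply h1
    rw [← ZMod.intCast_zmod_eq_zero_iff_dvd]
    push_cast
    exact sub_eq_zero.2 h2
  have hb : (b : ZMod q) ≠ 0 := by
    intro hb
    rw [hb, zero_pow hp.ne_zero] at e1
    have ha : (a : ZMod q) = 0 := pow_eq_zero_iff hp.ne_zero |>.1 e1
    exact e2 (by rw [ha, hb])
  have e3 : ((a : ZMod q) / b) ^ p = 1 := by
    rw [div_pow, e1, div_self (pow_ne_zero _ hb)]
  have e4 : (a : ZMod q) / b ≠ 1 := by
    intro h2
    exact e2 ((div_eq_one_iff_eq hb).1 h2)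
  have e5 : orderOf ((a : ZMod q) / b) = p := orderOf_eq_prime e3 e4
  have e6 : (a : ZMod q) / b ≠ 0 := by
    intro h2
    rw [h2, zero_pow hp.ne_zero] at e3
    exact zero_ne_one e3
  have e7 : orderOf ((a : ZMod q) / b) ∣ q - 1 := ZMod.orderOf_dvd_card_sub_one e6
  rw [e5] at e7
  have h3 : ((q - 1 : ℕ) : ℤ) = (q : ℤ) - 1 := by
    rw [Nat.cast_sub hq.one_le]
    norm_num
  rw [← h3]
  exact Int.natCast_dvd_natCast.2 e7

/-- the final form -/
theorem mersenne (J d : ℕ) (hd : Squarefree d) : ∃ c : ℝ, 0 < c ∧ ∃ X₀ : ℝ, ∀ X : ℝ, X₀ ≤ X →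
    ∀ h : ℕ, h.Coprime d →
    X ^ (9 / 10 : ℝ) ≤ ({p : ℕ | p.Prime ∧ X < p ∧ (p : ℝ) ≤ 3 * X ∧ p ≡ h [MOD d] ∧
      (∀ q : ℕ, q.Prime → q ∣ 2 ^ p - 1 → c * (p * ff p) < q) ∧
      (∀ a b : ℤ, IsCoprime a b → ∀ q : ℕ, q.Prime → (q : ℤ) ∣ a ^ p - b ^ p → ¬ (q : ℤ) ∣ a - b →
        c * (p * ff p) < q) ∧
      (∀ i j : ℤ, 1 ≤ |i| → |i| ≤ J → 1 ≤ |j| → |j| ≤ J → ∀ q : ℕ, q.Prime → i * q ≠ j →
        (p : ℤ) ∣ i * q - j → c * (p * ff p) < q)}.ncard : ℝ) := by
  obtain ⟨c, hc, hX⟩ := avoid (max J 1) d hd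
  obtain ⟨X₀, hX₀⟩ := eventually_atTop.1 (hX.and ff_le)
  refine ⟨c / 48, by positivity, max X₀ 4, fun X hXX h hh => ?_⟩
  obtain ⟨hX1, hX2⟩ := hX₀ X ((le_max_left _ _).trans hXX)
  have hX4 : 4 ≤ X := (le_max_right _ _).trans hXX
  set S := {p : ℕ | p.Prime ∧ X < p ∧ (p : ℝ) ≤ 3 * X ∧ p ≡ h [MOD d] ∧
      (∀ q : ℕ, q.Prime → q ∣ 2 ^ p - 1 → c / 48 * (p * ff p) < q) ∧
      (∀ a b : ℤ, IsCoprime a b → ∀ q : ℕ, q.Prime → (q : ℤ) ∣ a ^ p - b ^ p → ¬ (q : ℤ) ∣ a - b →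
        c / 48 * (p * ff p) < q) ∧
      (∀ i j : ℤ, 1 ≤ |i| → |i| ≤ J → 1 ≤ |j| → |j| ≤ J → ∀ q : ℕ, q.Prime → i * q ≠ j →
        (p : ℤ) ∣ i * q - j → c / 48 * (p * ff p) < q)} with hS
  have hfin : S.Finite := by
    apply (Set.finite_Iic ⌊3 * X⌋₊).subset
    intro p hp
    exact Set.mem_Iic.2 (Nat.le_floor hp.2.2.1)
  by_contra hcon
  push Not at hcon
  rw [Set.ncard_eq_toFinset_card S hfin] at hcon
  obtain ⟨p, hp, hXp, hp3, hpb, hpd, hmain⟩ := hX1 h hh hfin.toFinset hcon.le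
  apply hpb
  rw [Set.Finite.mem_toFinset]
  have hpp : c / 48 * (p * ff p) ≤ c * (X * ff X) := by
    have h1 := hX2 p hXp.le hp3
    have h2 : (0 : ℝ) ≤ p := Nat.cast_nonneg _
    have h3 : (p : ℝ) * ff p ≤ p * (16 * ff X) := mul_le_mul_of_nonneg_left h1 h2
    have h4 : 0 ≤ ff X := by
      by_contra h5
      push Not at h5
      have h6 := hX2 X le_rfl (by linarith)
      linarith
    have h5 : (p : ℝ) * (16 * ff X) ≤ 3 * X * (16 * ff X) := mul_le_mul_of_nonneg_right hp3 (by positivity)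
    calc c / 48 * (p * ff p) ≤ c / 48 * (3 * X * (16 * ff X)) :=
          mul_le_mul_of_nonneg_left (h3.trans h5) (by positivity)
      _ = c * (X * ff X) := by ring
  have hone : ∀ q : ℕ, q.Prime → (p : ℤ) ∣ (q : ℤ) - 1 → c / 48 * (p * ff p) < q := by
    intro q hq hdv
    refine hpp.trans_lt (hmain 1 1 (by norm_num) (by simp) (by norm_num) (by simp) q hq ?_ (by simpa using hdv))
    intro h1
    rw [one_mul] at h1
    exact hq.one_lt.ne' (by exact_mod_cast h1)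
  refine ⟨hp, hXp, hp3, hpd, ?_, ?_, ?_⟩
  · intro q hq hdv
    apply hone q hq
    apply dvd_sub_one hp hq 2 1 isCoprime_one_right
    · have h1 : ((2 ^ p - 1 : ℕ) : ℤ) = 2 ^ p - 1 ^ p := by
        rw [Nat.cast_sub Nat.one_le_two_pow]
        push_cast
        ring
      rw [← h1]
      exact Int.natCast_dvd_natCast.2 hdv
    · norm_num
      intro h1
      have := Int.isUnit_iff.1 (isUnit_of_dvd_one h1)
      rcases this with h2 | h2
      · exact hq.one_lt.ne' (by exact_mod_cast h2)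
      · have : (0 : ℤ) ≤ q := Int.natCast_nonneg q
        omega
  · intro a b hab q hq hdv hnd
    exact hone q hq (dvd_sub_one hp hq a b hab hdv hnd)
  · intro i j hi1 hiJ hj1 hjJ q hq hne hdv
    have hm : ((J : ℕ) : ℤ) ≤ ((max J 1 : ℕ) : ℤ) := by exact_mod_cast le_max_left J 1
    exact hpp.trans_lt (hmain i j hi1 (hiJ.trans hm) hj1 (hjJ.trans hm) q hq hne hdv)

end Pool.Agent.X34.M
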