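import Pool.Agent.TH101.RG.OneZ
import Pool.Agent.TH101.RG.Mult
import Pool.Agent.Helper112.Arith

set_option autoImplicit false
set_option maxHeartbeats 4000000

/-! # Primes `p` for which no small prime is congruent to `1` modulo `p` -/

namespace Pool.Agent.X34.M

open Finset Filter
open Pool.Agent.H256R2.SC (ff)
open Pool.Agent.H312R2.RG (ev_ff)
open Pool.Agent.TH101.RG

/-- the mean value of `r / φ(r)` is bounded -/
theorem sum_ratio : ∃ C : ℝ, 0 < C ∧ ∀ Y : ℕ,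
    ∑ r ∈ Icc 1 Y, ((r : ℝ) / (Nat.totient r : ℝ)) ≤ C * Y := by
  obtain ⟨C, hC0, hC⟩ := Pool.Agent.Helper112.divisor_bound (1/6) (by norm_num)
  have hsum : Summable (fun e : ℕ => C ^ 3 * (1 / (e:ℝ) ^ (3/2 : ℝ))) :=
    (Real.summable_one_div_nat_rpow.mpr (by norm_num)).mul_left _
  set D := ∑' e : ℕ, C ^ 3 * (1 / (e:ℝ) ^ (3/2 : ℝ)) with hD
  have hDnn : 0 ≤ D := tsum_nonneg (fun e => by positivity)
  refine ⟨D + 1, by linarith, ?_⟩
  intro Y
  have h1 : ∀ r ∈ Icc 1 Y, ((r : ℝ) / (Nat.totient r : ℝ)) ≤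
      ∑ e ∈ Icc 1 Y, (if e ∣ r then ((e.divisors.card : ℝ) ^ 3 / e) else 0) := by
    intro r hr
    rw [mem_Icc] at hr
    have hr0 : r ≠ 0 := by omega
    have hphi : (0 : ℝ) < Nat.totient r := by exact_mod_cast Nat.totient_pos.2 (by omega)
    have hge : (1 : ℝ) ≤ (r : ℝ) / (Nat.totient r : ℝ) := by
      rw [le_div_iff₀ hphi, one_mul]
      exact_mod_cast Nat.totient_le r
    have h2 := Pool.Agent.Helper112.ratio_sq_le r hr0
    have h3 : ∑ e ∈ Icc 1 Y, (if e ∣ r then ((e.divisors.card : ℝ) ^ 3 / e) else 0)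
        = ∑ e ∈ r.divisors, ((e.divisors.card : ℝ) ^ 3 / e) := by
      rw [← Finset.sum_filter]
      apply Finset.sum_congr _ (fun _ _ => rfl)
      ext e
      rw [mem_filter, mem_Icc, Nat.mem_divisors]
      constructor
      · rintro ⟨_, h⟩; exact ⟨h, hr0⟩
      · rintro ⟨h, _⟩
        have := Nat.le_of_dvd (by omega) h
        have := Nat.pos_of_dvd_of_pos h (by omega)
        exact ⟨⟨by omega, by omega⟩, h⟩
    rw [h3]
    refine le_trans ?_ h2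
    nlinarith
  refine (Finset.sum_le_sum h1).trans ?_
  rw [Finset.sum_comm]
  have h2 : ∀ e ∈ Icc 1 Y, ∑ r ∈ Icc 1 Y, (if e ∣ r then ((e.divisors.card : ℝ) ^ 3 / e) else 0)
      ≤ (C ^ 3 * (1 / (e:ℝ) ^ (3/2 : ℝ))) * Y := by
    intro e he
    rw [mem_Icc] at he
    have he0 : (0:ℝ) < e := by exact_mod_cast (by omega : 0 < e)
    rw [← Finset.sum_filter, Finset.sum_const, nsmul_eq_mul]
    have hcard : (((Icc 1 Y).filter (fun r => e ∣ r)).card : ℝ) ≤ (Y : ℝ) / e := by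
      have h3 : ((Icc 1 Y).filter (fun r => e ∣ r)).card ≤ Y / e := by
        have h4 := Nat.card_multiples Y e
        have h5 : (Icc 1 Y).filter (fun r => e ∣ r) ⊆ ((Finset.range Y).filter (fun x => e ∣ x + 1)).image (fun x => x + 1) := by
          intro r hr
          rw [mem_filter, mem_Icc] at hr
          rw [mem_image]
          refine ⟨r - 1, ?_, by omega⟩
          rw [mem_filter, mem_range]
          refine ⟨by omega, ?_⟩
          rw [Nat.sub_add_cancel hr.1.1]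
          exact hr.2
        refine (card_le_card h5).trans (card_image_le.trans ?_)
        rw [h4]
      calc (((Icc 1 Y).filter (fun r => e ∣ r)).card : ℝ) ≤ ((Y / e : ℕ) : ℝ) := by exact_mod_cast h3
        _ ≤ _ := Nat.cast_div_le
    have h5 : (e.divisors.card : ℝ) ^ 3 ≤ C ^ 3 * (e:ℝ) ^ (1/2 : ℝ) := by
      have h6 := pow_le_pow_left₀ (by positivity) (hC e he.1) 3
      rw [mul_pow, ← Real.rpow_natCast ((e:ℝ) ^ (1/6:ℝ)) 3, ← Real.rpow_mul he0.le] at h6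
      norm_num at h6 ⊢
      exact h6
    have h6 : (e.divisors.card : ℝ) ^ 3 / (e * e) ≤ C ^ 3 * (1 / (e:ℝ) ^ (3/2 : ℝ)) := by
      have h7 : (e:ℝ) * e = (e:ℝ) ^ (1/2:ℝ) * (e:ℝ) ^ (3/2:ℝ) := by
        rw [← Real.rpow_add he0, ← pow_two, ← Real.rpow_natCast]; norm_num
      rw [h7, div_le_iff₀ (by positivity)]
      have h8 : C ^ 3 * (1 / (e:ℝ) ^ (3/2 : ℝ)) * ((e:ℝ) ^ (1/2:ℝ) * (e:ℝ) ^ (3/2:ℝ)) = C ^ 3 * (e:ℝ) ^ (1/2:ℝ) := by
        field_simp
      rw [h8]; exact h5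
    calc (((Icc 1 Y).filter (fun r => e ∣ r)).card : ℝ) * ((e.divisors.card : ℝ) ^ 3 / e)
        ≤ ((Y : ℝ) / e) * ((e.divisors.card : ℝ) ^ 3 / e) :=
          mul_le_mul_of_nonneg_right hcard (by positivity)
      _ = ((e.divisors.card : ℝ) ^ 3 / (e * e)) * Y := by field_simp
      _ ≤ _ := mul_le_mul_of_nonneg_right h6 (Nat.cast_nonneg _)
  refine (Finset.sum_le_sum h2).trans ?_
  rw [← Finset.sum_mul]
  have h3 : ∑ e ∈ Icc 1 Y, C ^ 3 * (1 / (e:ℝ) ^ (3/2 : ℝ)) ≤ D :=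
    hsum.sum_le_tsum _ (fun _ _ => by positivity)
  exact mul_le_mul_of_nonneg_right (by linarith) (Nat.cast_nonneg _)

/-- `log X ≤ f(X) ≤ log X (log log X)^2` -/
theorem ff_bounds : ∀ᶠ X : ℝ in atTop, Real.log X ≤ ff X ∧ ff X ≤ Real.log X * (Real.log (Real.log X)) ^ 2 := by
  have t1 := Real.tendsto_log_atTop
  have t2 : Tendsto (fun X : ℝ => Real.log (Real.log X)) atTop atTop := t1.comp t1
  have t3 : Tendsto (fun X : ℝ => Real.log (Real.log (Real.log X))) atTop atTop := t1.comp t2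
  have t4 : Tendsto (fun X : ℝ => Real.log (Real.log (Real.log (Real.log X)))) atTop atTop := t1.comp t3
  filter_upwards [t3.eventually_ge_atTop 1, t4.eventually_ge_atTop 1,
    t2.eventually_ge_atTop 1, t1.eventually_ge_atTop 1] with X h3 h4 h6 h7
  set l1 := Real.log X with hl1
  set l2 := Real.log l1 with hl2
  set l3 := Real.log l2 with hl3
  have hff : ff X = l1 * l2 ^ 2 * Real.log l3 / l3 ^ 2 := rfl
  have h9 : Real.log l3 ≤ l3 ^ 2 := by
    have := Real.log_le_sub_one_of_pos (show (0 : ℝ) < l3 by linarith)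
    nlinarith
  have h8 : l3 ≤ l2 := by
    have := Real.log_le_sub_one_of_pos (show (0 : ℝ) < l2 by linarith)
    linarith
  constructor
  · rw [hff, le_div_iff₀ (by positivity)]
    have h5 : l3 ^ 2 ≤ l2 ^ 2 := pow_le_pow_left₀ (by linarith) h8 2
    calc l1 * l3 ^ 2 ≤ l1 * l2 ^ 2 := mul_le_mul_of_nonneg_left h5 (by linarith)
      _ = l1 * l2 ^ 2 * 1 := (mul_one _).symm
      _ ≤ _ := mul_le_mul_of_nonneg_left h4 (by positivity)
  · rw [hff, mul_div_assoc]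
    calc l1 * l2 ^ 2 * (Real.log l3 / l3 ^ 2) ≤ l1 * l2 ^ 2 * 1 :=
          mul_le_mul_of_nonneg_left (by rw [div_le_one (by positivity)]; exact h9) (by positivity)
      _ = _ := by ring

theorem weights_le (C : ℝ) (hC : ∀ Y : ℕ, ∑ r ∈ Icc 1 Y, ((r : ℝ) / (Nat.totient r : ℝ)) ≤ C * Y)
    (M : ℕ) : ∑ z ∈ (Icc (-(M : ℤ)) M).filter (fun z => z ≠ 0),
      ((z.natAbs : ℝ) / (z.natAbs.totient : ℝ)) ≤ 2 * (C * M) := by
  have h1 : (Icc (-(M : ℤ)) M).filter (fun z => z ≠ 0) ⊆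
      (Icc 1 M).image (fun n : ℕ => (n : ℤ)) ∪ (Icc 1 M).image (fun n : ℕ => -(n : ℤ)) := by
    intro z hz
    rw [mem_filter, mem_Icc] at hz
    rw [mem_union, mem_image, mem_image]
    obtain ⟨⟨h1, h2⟩, h3⟩ := hz
    rcases lt_or_gt_of_ne h3 with h4 | h4
    · right
      refine ⟨(-z).toNat, ?_, ?_⟩
      · rw [mem_Icc]; omega
      · omega
    · left
      refine ⟨z.toNat, ?_, ?_⟩
      · rw [mem_Icc]; omega
      · omega
  refine (Finset.sum_le_sum_of_subset_of_nonneg h1 (fun _ _ _ => by positivity)).trans ?_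
  have h2 := Finset.sum_union_inter (s₁ := (Icc 1 M).image (fun n : ℕ => (n : ℤ)))
    (s₂ := (Icc 1 M).image (fun n : ℕ => -(n : ℤ))) (f := fun z : ℤ => ((z.natAbs : ℝ) / (z.natAbs.totient : ℝ)))
  have h3 : 0 ≤ ∑ z ∈ (Icc 1 M).image (fun n : ℕ => (n : ℤ)) ∩ (Icc 1 M).image (fun n : ℕ => -(n : ℤ)),
      ((z.natAbs : ℝ) / (z.natAbs.totient : ℝ)) := Finset.sum_nonneg fun _ _ => by positivity
  have h4 : ∑ z ∈ (Icc 1 M).image (fun n : ℕ => (n : ℤ)), ((z.natAbs : ℝ) / (z.natAbs.totient : ℝ)) ≤ C * M := by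
    rw [Finset.sum_image (fun a _ b _ h => by simpa using h)]
    simpa using hC M
  have h5 : ∑ z ∈ (Icc 1 M).image (fun n : ℕ => -(n : ℤ)), ((z.natAbs : ℝ) / (z.natAbs.totient : ℝ)) ≤ C * M := by
    rw [Finset.sum_image (fun a _ b _ h => by simpa using h)]
    simpa using hC M
  linarith

/-- the core: primes `p` such that no prime `q` up to the record size satisfies `i q ≡ j (mod p)` -/
theorem avoid (J d : ℕ) (hd : Squarefree d) : ∃ c : ℝ, 0 < c ∧ ∀ᶠ X : ℝ in atTop, ∀ h : ℕ, h.Coprime d →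
    ∀ bad : Finset ℕ, (bad.card : ℝ) ≤ X ^ (9 / 10 : ℝ) →
    ∃ p : ℕ, p.Prime ∧ X < p ∧ (p : ℝ) ≤ 3 * X ∧ p ∉ bad ∧ p ≡ h [MOD d] ∧
      ∀ i j : ℤ, 1 ≤ |i| → |i| ≤ J → 1 ≤ |j| → |j| ≤ J → ∀ q : ℕ, q.Prime → i * q ≠ j →
        (p : ℤ) ∣ i * q - j → c * (X * ff X) < q := by
  obtain ⟨ℓ, hℓ⟩ : ∃ ℓ : ℕ, ℓ = J.factorial := ⟨_, rfl⟩
  have hℓ0 : 0 < ℓ := by rw [hℓ]; exact Nat.factorial_pos J
  have hℓr : (1 : ℝ) ≤ ℓ := by exact_mod_cast hℓ0
  have hd0 : d ≠ 0 := hd.ne_zero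
  have hd0' : 0 < d := Nat.pos_of_ne_zero hd0
  obtain ⟨C, hC, hCM⟩ := sum_ratio
  obtain ⟨c₁, hc₁, hone⟩ := oneZ 2 2 (ℓ + d)
  obtain ⟨c₂, hc₂⟩ : ∃ c₂ : ℝ, c₂ = min (c₁ / (2 * C)) 1 := ⟨_, rfl⟩
  have hc₂0 : 0 < c₂ := by rw [hc₂]; positivity
  have hc₂1 : c₂ ≤ 1 := by rw [hc₂]; exact min_le_right _ _
  have hc₂2 : 2 * (C * c₂) ≤ c₁ := by
    have : c₂ ≤ c₁ / (2 * C) := by rw [hc₂]; exact min_le_left _ _
    rw [le_div_iff₀ (by positivity)] at this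
    linarith
  refine ⟨c₂ / (2 * ℓ * (J + 1)), by positivity, ?_⟩
  have t1 := Real.tendsto_log_atTop
  filter_upwards [hone d hd, ff_bounds, t1.eventually_ge_atTop ((ℓ : ℝ) * d), t1.eventually_ge_atTop 1,
    t1.eventually_ge_atTop (4 * (ℓ + 1) / c₂), eventually_ge_atTop (4 : ℝ), ev_ff 1 one_pos,
    t1.eventually_ge_atTop ((J : ℝ) + 2), eventually_ge_atTop (2 * (J : ℝ) + 2),
    t1.eventually (Pool.Agent.H378R2.ev_pow_exp 1 (1 / 40) 1 (by norm_num))]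
    with X hX hff hLd hL1 hLc hX4 hff2 hLJ hXJ hE
  intro h hh bad hbad
  have hX0 : 0 < X := by linarith
  have hX1 : 1 ≤ X := by linarith
  have hJ0 : (0 : ℝ) ≤ J := Nat.cast_nonneg J
  set L := Real.log X with hL
  have hL0 : 0 < L := by linarith
  have hLX : L ≤ X := (Real.log_le_sub_one_of_pos hX0).trans (by linarith)
  obtain ⟨M, hM⟩ : ∃ M : ℕ, M = ⌊c₂ * ff X⌋₊ := ⟨_, rfl⟩
  have hffn : 0 ≤ ff X := hff2.2.1
  have hM1 : (M : ℝ) ≤ c₂ * ff X := by rw [hM]; exact Nat.floor_le (by positivity)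
  have hM2 : c₂ * ff X < M + 1 := by rw [hM]; exact Nat.lt_floor_add_one _
  have hMff : (M : ℝ) ≤ ff X := hM1.trans (by nlinarith)
  have hℓne : (ℓ : ℤ) ≠ 0 := by exact_mod_cast hℓ0.ne'
  obtain ⟨p, hp, hXp, hp3, hpb, hpd, hmain⟩ := hX (fun z => z) (fun _ => ℓ) (ℓ * d) (mul_ne_zero hℓ0.ne' hd0)
    (dvd_mul_left _ _)
    ((sum_inv_mul ℓ d hℓ0.ne' hd0).trans (add_le_add (sum_inv_le_self ℓ) (sum_inv_le_self d)))
    (by
      push_cast
      calc (ℓ : ℝ) * d ≤ L := hLd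
        _ = L ^ 1 := (pow_one _).symm
        _ ≤ L ^ 2 := pow_le_pow_right₀ hL1 (by norm_num))
    (by
      intro r hr hrg cc hcc
      have hrℓ : ¬ (r : ℤ) ∣ (ℓ : ℤ) := fun h1 => hrg ((Int.natCast_dvd_natCast.1 h1).mul_right _)
      obtain ⟨ρ, hρ⟩ := solve r hr cc ℓ hcc
      refine ⟨ρ, ?_, ?_⟩
      · intro h1
        apply hrℓ
        have h2 : (r : ℤ) ∣ (ρ : ℤ) := Int.natCast_dvd_natCast.2 h1
        have h3 := dvd_sub hρ (h2.mul_left cc)
        rwa [add_sub_cancel_left] at h3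
      · intro z n h1 h2
        have h3 : z * n + (ℓ : ℤ) = (z - cc) * n + cc * (n - ρ) + (cc * ρ + ℓ) := by ring
        show (r : ℤ) ∣ z * n + ℓ
        rw [h3]
        exact dvd_add (dvd_add (h1.mul_right _) (h2.mul_left _)) hρ) h hh bad hbad
    ((Icc (-(M : ℤ)) M).filter (fun z => z ≠ 0))
    (by
      intro z hz
      rw [mem_filter, mem_Icc] at hz
      refine ⟨hz.2, ?_⟩
      have h1 : |z| ≤ (M : ℤ) := abs_le.2 hz.1
      have h2 : |(z : ℝ)| ≤ M := by exact_mod_cast h1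
      exact h2.trans (hMff.trans hff.2))
    (by
      intro z hz
      rw [mem_filter] at hz
      exact ⟨hz.2, hℓne⟩)
    (by
      intro z hz
      rw [mem_filter, mem_Icc] at hz
      have h1 : |z| ≤ (M : ℤ) := abs_le.2 hz.1
      have h2 : |(z : ℝ)| ≤ M := by exact_mod_cast h1
      have hXX : X ≤ X ^ 2 := by nlinarith
      constructor
      · have h3 : ff X ≤ X := by linarith [hff2.2.2]
        exact h2.trans (hMff.trans (h3.trans hXX))
      · have hdr : (1 : ℝ) ≤ d := by exact_mod_cast hd0'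
        have h3 : (ℓ : ℝ) ≤ ℓ * d := by nlinarith
        have h4 : |(((ℓ : ℕ) : ℤ) : ℝ)| = ℓ := by
          push_cast
          exact abs_of_nonneg (by positivity)
        rw [h4]
        exact h3.trans (hLd.trans (hLX.trans hXX)))
    (by
      intro k _ l _ hkl h1
      exact hkl (mul_right_cancel₀ hℓne h1))
    (by
      refine (weights_le C hCM M).trans ?_
      calc 2 * (C * M) ≤ 2 * (C * (c₂ * ff X)) := by gcongr
        _ = 2 * (C * c₂) * ff X := by ring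
        _ ≤ c₁ * ff X := mul_le_mul_of_nonneg_right hc₂2 hffn)
  refine ⟨p, hp, hXp, hp3, hpb, hpd, ?_⟩
  intro i j hi1 hiJ hj1 hjJ q hq hne hdvd
  by_contra hcon
  push Not at hcon
  obtain ⟨k, hk⟩ := hdvd
  have hk0 : k ≠ 0 := by
    rintro rfl
    rw [mul_zero, sub_eq_zero] at hk
    exact hne hk
  have hp0 : (0 : ℝ) < p := by linarith
  -- the size of `k`
  have hiR : |(i : ℝ)| ≤ J := by exact_mod_cast hiJ
  have hjR : |(j : ℝ)| ≤ J := by exact_mod_cast hjJ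
  have hkR : (i : ℝ) * q - j = p * k := by exact_mod_cast hk
  have hk1 : |(k : ℝ)| ≤ J * (c₂ / (2 * ℓ * (J + 1)) * ff X) + 1 := by
    have h1 : (p : ℝ) * |(k : ℝ)| ≤ J * (c₂ / (2 * ℓ * (J + 1)) * (X * ff X)) + J := by
      have h2 : (p : ℝ) * |(k : ℝ)| = |(i : ℝ) * q - j| := by
        rw [hkR, abs_mul, abs_of_pos hp0]
      rw [h2]
      refine (abs_sub _ _).trans ?_
      rw [abs_mul, abs_of_nonneg (Nat.cast_nonneg q : (0 : ℝ) ≤ q)]
      exact add_le_add (mul_le_mul hiR hcon (Nat.cast_nonneg q) hJ0) hjR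
    have h2 : (0 : ℝ) ≤ |(k : ℝ)| := abs_nonneg _
    have h3 : X * |(k : ℝ)| ≤ X * (J * (c₂ / (2 * ℓ * (J + 1)) * ff X) + 1) := by
      calc X * |(k : ℝ)| ≤ p * |(k : ℝ)| := mul_le_mul_of_nonneg_right hXp.le h2
        _ ≤ J * (c₂ / (2 * ℓ * (J + 1)) * (X * ff X)) + J := h1
        _ ≤ J * (c₂ / (2 * ℓ * (J + 1)) * (X * ff X)) + X := by linarith
        _ = _ := by ring
    exact le_of_mul_le_mul_left h3 hX0
  have hk2 : (ℓ : ℝ) * |(k : ℝ)| ≤ M := by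
    have h1 : (ℓ : ℝ) * (J * (c₂ / (2 * ℓ * (J + 1)) * ff X)) ≤ c₂ * ff X / 2 := by
      have h2 : (ℓ : ℝ) * (J * (c₂ / (2 * ℓ * (J + 1)) * ff X)) = (J / (J + 1)) * (c₂ * ff X / 2) := by
        field_simp
      rw [h2]
      have h3 : (J : ℝ) / (J + 1) ≤ 1 := by
        rw [div_le_one (by positivity)]
        linarith
      have h4 : 0 ≤ c₂ * ff X / 2 := by positivity
      calc (J : ℝ) / (J + 1) * (c₂ * ff X / 2) ≤ 1 * (c₂ * ff X / 2) := mul_le_mul_of_nonneg_right h3 h4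
        _ = _ := one_mul _
    have h5 : 4 * ((ℓ : ℝ) + 1) ≤ c₂ * ff X := by
      rw [div_le_iff₀ hc₂0] at hLc
      calc 4 * ((ℓ : ℝ) + 1) ≤ L * c₂ := hLc
        _ ≤ ff X * c₂ := mul_le_mul_of_nonneg_right hff.1 hc₂0.le
        _ = _ := mul_comm _ _
    have h6 : (ℓ : ℝ) * |(k : ℝ)| ≤ ℓ * (J * (c₂ / (2 * ℓ * (J + 1)) * ff X) + 1) :=
      mul_le_mul_of_nonneg_left hk1 (by positivity)
    nlinarith
  -- the multiple
  have hj0 : j ≠ 0 := by
    rintro rfl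
    simp at hj1
  have hdivℓ : ∀ x : ℤ, 1 ≤ |x| → |x| ≤ J → x ∣ (ℓ : ℤ) := by
    intro x h1 h2
    rw [Int.abs_eq_natAbs] at h1 h2
    rw [← Int.natAbs_dvd_natAbs, Int.natAbs_natCast, hℓ]
    apply Nat.dvd_factorial
    · exact_mod_cast h1
    · exact_mod_cast h2
  obtain ⟨j₁, hj₁⟩ := hdivℓ j hj1 hjJ
  have hj₁0 : j₁ ≠ 0 := by
    rintro rfl
    rw [mul_zero] at hj₁
    exact hℓne hj₁
  have hj₁le : |j₁| ≤ (ℓ : ℤ) := by
    rw [Int.abs_eq_natAbs]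
    have hdv : j₁ ∣ (ℓ : ℤ) := ⟨j, by rw [hj₁]; ring⟩
    have := Nat.le_of_dvd hℓ0 (Int.natCast_dvd_natCast.1 ((Int.natAbs_dvd).2 hdv))
    exact_mod_cast this
  have hzmem : j₁ * k ∈ (Icc (-(M : ℤ)) M).filter (fun z => z ≠ 0) := by
    rw [mem_filter, mem_Icc, ← abs_le]
    refine ⟨?_, mul_ne_zero hj₁0 hk0⟩
    have h1 : ((|j₁ * k| : ℤ) : ℝ) ≤ M := by
      push_cast
      rw [abs_mul]
      have h2 : |(j₁ : ℝ)| ≤ ℓ := by exact_mod_cast hj₁le
      calc |(j₁ : ℝ)| * |(k : ℝ)| ≤ ℓ * |(k : ℝ)| := mul_le_mul_of_nonneg_right h2 (abs_nonneg _)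
        _ ≤ M := hk2
    exact_mod_cast h1
  obtain ⟨r, hr, hrX, hrg, hrd⟩ := hmain _ hzmem
  have hid : j₁ * k * (p : ℤ) + (ℓ : ℤ) = j₁ * i * q := by
    have h1 : j₁ * k * (p : ℤ) = j₁ * (i * q - j) := by rw [hk]; ring
    rw [h1, hj₁]
    ring
  have hrℓ : ¬ (r : ℤ) ∣ (ℓ : ℤ) := fun h1 => hrg ((Int.natCast_dvd_natCast.1 h1).mul_right _)
  have hrd' : (r : ℤ) ∣ j₁ * i * q := by
    rw [← hid]
    exact hrd
  have hrp := Nat.prime_iff_prime_int.1 hr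
  have hrq : r = q := by
    rcases hrp.dvd_mul.1 hrd' with h1 | h1
    · rcases hrp.dvd_mul.1 h1 with h2 | h2
      · exact absurd (h2.trans ⟨j, by rw [hj₁]; ring⟩) hrℓ
      · exact absurd (h2.trans (hdivℓ i hi1 hiJ)) hrℓ
    · exact (Nat.prime_dvd_prime_iff_eq hr hq).1 (by exact_mod_cast h1)
  -- contradiction with the size of `q`
  have hqX : (q : ℝ) ≤ X ^ (1 / 1000 : ℝ) := by rw [← hrq]; exact hrX
  set E := Real.exp (1 / 40 * L) with hEd
  have hpowE : X ^ ((1 : ℝ) / 40) = E := by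
    rw [hEd, Real.rpow_def_of_pos hX0, ← hL]
    congr 1
    ring
  have e1000 : X ^ (1 / 1000 : ℝ) ≤ E := by
    rw [← hpowE]
    exact Real.rpow_le_rpow_of_exponent_le hX1 (by norm_num)
  have hE0 : 0 < E := Real.exp_pos _
  have hEJ : (J : ℝ) + 2 ≤ E := by
    rw [one_mul, pow_one] at hE
    linarith
  have eX : X = E ^ 40 := by
    rw [← hpowE, ← Real.rpow_natCast, ← Real.rpow_mul hX0.le]
    norm_num
  have h1 : (p : ℝ) * |(k : ℝ)| ≤ J * E + J := by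
    have h2 : (p : ℝ) * |(k : ℝ)| = |(i : ℝ) * q - j| := by
      rw [hkR, abs_mul, abs_of_pos hp0]
    rw [h2]
    refine (abs_sub _ _).trans ?_
    rw [abs_mul, abs_of_nonneg (Nat.cast_nonneg q : (0 : ℝ) ≤ q)]
    exact add_le_add (mul_le_mul hiR (hqX.trans e1000) (Nat.cast_nonneg q) hJ0) hjR
  have h2 : (1 : ℝ) ≤ |(k : ℝ)| := by
    have : 1 ≤ |k| := Int.one_le_abs hk0
    exact_mod_cast this
  have h3 : X ≤ J * E + J := by
    calc X ≤ p := hXp.le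
      _ ≤ p * |(k : ℝ)| := le_mul_of_one_le_right hp0.le h2
      _ ≤ _ := h1
  have h5 : (J : ℝ) * E + J < E ^ 40 := by
    have hE1 : 1 ≤ E := by linarith
    calc (J : ℝ) * E + J ≤ J * E + J * E := by nlinarith
      _ = 2 * J * E := by ring
      _ < E * E * E := by
        have : 2 * (J : ℝ) < E * E := by nlinarith
        exact mul_lt_mul_of_pos_right this hE0
      _ = E ^ 3 := by ring
      _ ≤ E ^ 40 := pow_le_pow_right₀ hE1 (by norm_num)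
  rw [← eX] at h5
  linarith

end Pool.Agent.X34.M
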