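import Pool.Agent.TH101.RG.OneZ
import Pool.Agent.X34.M.M2

set_option autoImplicit false
set_option maxHeartbeats 4000000

/-! # A prime at which every form of a large structured family is composite, with several excluded shifts -/

namespace Pool.Agent.X34.M

open Finset Filter
open Pool.Agent.H378R2
open Pool.Agent.H312R2.RG (BVat)
open Pool.Agent.H256R2.SC (ff)
open Pool.Agent.TH101.RG

open scoped Classical

theorem oneK (K A D : ℕ) (A0 : ℝ) : ∃ c : ℝ, 0 < c ∧ ∀ d : ℕ, Squarefree d → ∀ᶠ X : ℝ in atTop,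
    ∀ (α β : ℤ → ℤ) (g : ℕ), g ≠ 0 → d ∣ g → ∑ p ∈ g.primeFactors, (1 : ℝ) / p ≤ A0 →
    (g : ℝ) ≤ (Real.log X) ^ D →
    ∀ (τ : Fin K → ℤ) (v : ℕ → ℤ), (∀ j, |(τ j : ℝ)| ≤ (Real.log X) ^ D) →
    (∀ p : ℕ, p.Prime → ¬ p ∣ g → ∀ j, ¬ (p : ℤ) ∣ v p - τ j) →
    (∀ p : ℕ, p.Prime → ¬ p ∣ g → ∀ c : ℤ, (∀ j, ¬ (p : ℤ) ∣ c - τ j) → ∃ ρ : ℕ, ¬ p ∣ ρ ∧
      ∀ z n : ℤ, (p : ℤ) ∣ z - c → (p : ℤ) ∣ n - ρ → (p : ℤ) ∣ α z * n + β z) →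
    ∀ h : ℕ, h.Coprime d → ∀ bad : Finset ℕ, (bad.card : ℝ) ≤ X ^ (9 / 10 : ℝ) →
    ∀ Z : Finset ℤ, (∀ z ∈ Z, |(z : ℝ)| ≤ Real.log X * (Real.log (Real.log X)) ^ A) →
    (∀ z ∈ Z, ∀ j, z ≠ τ j) →
    (∀ z ∈ Z, α z ≠ 0 ∧ β z ≠ 0) → (∀ z ∈ Z, |(α z : ℝ)| ≤ X ^ D ∧ |(β z : ℝ)| ≤ X ^ D) →
    (∀ k ∈ Z, ∀ l ∈ Z, k ≠ l → α k * β l ≠ α l * β k) →
    ∑ z ∈ Z, wZ τ z ≤ c * ff X →
    ∃ p : ℕ, p.Prime ∧ X < p ∧ (p : ℝ) ≤ 3 * X ∧ p ∉ bad ∧ p ≡ h [MOD d] ∧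
      ∀ z ∈ Z, ∃ q : ℕ, q.Prime ∧ (q : ℝ) ≤ X ^ (1 / 1000 : ℝ) ∧ ¬ q ∣ g ∧ (q : ℤ) ∣ α z * p + β z := by
  obtain ⟨Abv, c₄, hc₄, ht⟩ := templ2 D
  obtain ⟨c, hc, hcov⟩ := covZ K A D A0 c₄ hc₄
  refine ⟨c, hc, fun d hd => ?_⟩
  obtain ⟨X1, hbv⟩ := bvrel_holds Abv (max 2 d)
  have t1 := Real.tendsto_log_atTop
  have t2 : Tendsto (fun y : ℝ => Real.log (Real.log y)) atTop atTop := t1.comp t1
  filter_upwards [ht (max 2 d), hcov, eventually_ge_atTop X1, eventually_ge_atTop 4,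
    t1.eventually_ge_atTop 1, t1.eventually_ge_atTop (1000 * (max 2 d : ℕ)),
    t2.eventually_ge_atTop ((max 2 d : ℕ) + 1)] with X htX hcovX hX1 hX4 hL1 hLd hL2d
  intro α β g hg0 hdg hgS hgD τ v hτ hv hH h hhd bad hbad Z hZ hZτ hne hle hdet hw
  obtain ⟨ps, S, hps, hS, hBV⟩ := hbv X hX1
  have hX0 : 0 < X := by linarith
  have hLX : Real.log X ≤ X := (Real.log_le_sub_one_of_pos hX0).trans (by linarith)
  set u : ℕ → ℕ := fun p => if p ∣ d then h else 1 with hu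
  have hup : ∀ p, p.Prime → ¬ p ∣ u p := by
    intro p hp
    simp only [hu]
    split_ifs with hpd
    · intro hph
      exact hp.one_lt.ne' (Nat.dvd_one.1 (hhd ▸ Nat.dvd_gcd hph hpd))
    · intro h1
      exact hp.one_lt.ne' (Nat.dvd_one.1 h1)
  obtain ⟨cl, U0, hU0, hU0c, hcl, hcov'⟩ := hcovX ps S hS g hg0 hgS hgD τ v hτ
    (fun p hp _ hpg j => hv p hp hpg j) Z hZ hZτ hw
  have hex : ∀ p : ℕ, ∃ ρ : ℕ, p ∈ PW X S ps → (¬ p ∣ ρ ∧ (p ∣ g → ρ = u p) ∧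
      (¬ p ∣ g → ∀ z n : ℤ, (p : ℤ) ∣ z - cl p → (p : ℤ) ∣ n - ρ → (p : ℤ) ∣ α z * n + β z)) := by
    intro p
    by_cases hp : p ∈ PW X S ps
    · have hpp := (mem_PW.1 hp).2.1
      by_cases hpg : p ∣ g
      · exact ⟨u p, fun _ => ⟨hup p hpp, fun _ => rfl, fun h => absurd hpg h⟩⟩
      · obtain ⟨ρ, h1, h2⟩ := hH p hpp hpg (cl p) (hcl p hp hpg)
        exact ⟨ρ, fun _ => ⟨h1, fun h => absurd h hpg, fun _ => h2⟩⟩
    · exact ⟨0, fun h => absurd h hp⟩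
  choose ρ hρ using hex
  obtain ⟨r, hr⟩ := Nat.chineseRemainderOfFinset ρ (fun p => p) (PW X S ps)
    (fun p hp => (mem_PW.1 hp).2.1.ne_zero)
    (fun p hp q hq hpq => (Nat.coprime_primes (mem_PW.1 (by simpa using hp)).2.1
      (mem_PW.1 (by simpa using hq)).2.1).2 hpq)
  have hrc : r.Coprime (WW X S ps) := by
    unfold WW
    rw [Nat.coprime_prod_right_iff]
    intro p hp
    have hpp := (mem_PW.1 hp).2.1
    rw [Nat.coprime_comm, Nat.Prime.coprime_iff_not_dvd hpp]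
    intro hd
    apply (hρ p hp).1
    exact (Nat.modEq_zero_iff_dvd).1 ((hr p hp).symm.trans ((Nat.modEq_zero_iff_dvd).2 hd))
  obtain ⟨n, hnp, hXn, hn3, hnb, hnr, hU⟩ := htX ps S hps hBV U0 hU0c α β (fun z hz => hne z (hU0 hz))
    (fun z hz => hle z (hU0 hz)) (fun k hk l hl => hdet k (hU0 hk) l (hU0 hl)) g hg0
    (hgD.trans (pow_le_pow_left₀ (by linarith) hLX D)) r hrc bad hbad
  refine ⟨n, hnp, hXn, hn3, hnb, ?_, fun z hz => ?_⟩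
  · apply modEq_of_primes hd
    intro p hp
    have hpp := Nat.prime_of_mem_primeFactors hp
    have hpd := Nat.dvd_of_mem_primeFactors hp
    have hd0 : 0 < d := Nat.pos_of_ne_zero hd.ne_zero
    have hpled : p ≤ d := Nat.le_of_dvd hd0 hpd
    have hpPW := small_mem_PW hLd hL2d hps le_rfl hS hpp (hpled.trans (le_max_right 2 d))
    have h1 := hr p hpPW
    have h2 : ρ p = u p := (hρ p hpPW).2.1 (hpd.trans hdg)
    have h3 : u p = h := by simp only [hu]; rw [if_pos hpd]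
    rw [h2, h3] at h1
    exact (hnr.of_dvd ((prime_dvd_WW hpp).2 hpPW)).trans h1
  · by_cases hzU : z ∈ U0
    · exact hU z hzU
    · obtain ⟨p, hp, hpg, hpz⟩ := hcov' z hz hzU
      have hpp := (mem_PW.1 hp).2.1
      refine ⟨p, hpp, le_rpow_of_le_yy hX0 (by linarith) (mem_PW.1 hp).1, hpg, ?_⟩
      apply (hρ p hp).2.2 hpg z n hpz
      exact Nat.modEq_iff_dvd.1 (((hnr.of_dvd ((prime_dvd_WW hpp).2 hp)).trans (hr p hp)).symm)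

end Pool.Agent.X34.M
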