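import Pool.Agent.X34.M.M10

set_option autoImplicit false
set_option maxHeartbeats 4000000

/-! # Records for the least argument in `N = f(m) + p`, `f` quadratic -/

namespace Pool.Agent.X34.M

open Finset Filter
open Pool.Agent.H256R2.SC (ff)
open Pool.Agent.H312R2.RG (ev_ff)
open Pool.Agent.TH101.RG

/-- the mean square of `r / φ(r)` is bounded -/
theorem sum_ratio2 : ∃ C : ℝ, 0 < C ∧ ∀ Y : ℕ,
    ∑ r ∈ Icc 1 Y, ((r : ℝ) / (Nat.totient r : ℝ)) ^ 2 ≤ C * Y := by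
  obtain ⟨C, hC0, hC⟩ := Pool.Agent.Helper112.divisor_bound (1/6) (by norm_num)
  have hsum : Summable (fun e : ℕ => C ^ 3 * (1 / (e:ℝ) ^ (3/2 : ℝ))) :=
    (Real.summable_one_div_nat_rpow.mpr (by norm_num)).mul_left _
  set D := ∑' e : ℕ, C ^ 3 * (1 / (e:ℝ) ^ (3/2 : ℝ)) with hD
  have hDnn : 0 ≤ D := tsum_nonneg (fun e => by positivity)
  refine ⟨D + 1, by linarith, ?_⟩
  intro Y
  have h1 : ∀ r ∈ Icc 1 Y, ((r : ℝ) / (Nat.totient r : ℝ)) ^ 2 ≤
      ∑ e ∈ Icc 1 Y, (if e ∣ r then ((e.divisors.card : ℝ) ^ 3 / e) else 0) := by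
    intro r hr
    rw [mem_Icc] at hr
    have hr0 : r ≠ 0 := by omega
    have h2 := Pool.Agent.Helper112.ratio_sq_le r hr0
    have h3 : ∑ e ∈ Icc 1 Y, (if e ∣ r then ((e.divisors.card : ℝ) ^ 3 / e) else 0)
        = ∑ e ∈ r.divisors, ((e.divisors.card : ℝ) ^ 3 / e) := by
      rw [← Finset.sum_filter]
      apply Finset.sum_congr _ (fun _ _ => rfl)
      ext e
      rw [mem_filter, mem_Icc, Nat.mem_divisors]
      constructor
      · rintro ⟨_, h⟩; exact ⟨h, hr0⟩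
      · rintro ⟨h, _⟩
        have := Nat.le_of_dvd (by omega) h
        have := Nat.pos_of_dvd_of_pos h (by omega)
        exact ⟨⟨by omega, by omega⟩, h⟩
    rw [h3]
    exact h2
  refine (Finset.sum_le_sum h1).trans ?_
  rw [Finset.sum_comm]
  have h2 : ∀ e ∈ Icc 1 Y, ∑ r ∈ Icc 1 Y, (if e ∣ r then ((e.divisors.card : ℝ) ^ 3 / e) else 0)
      ≤ (C ^ 3 * (1 / (e:ℝ) ^ (3/2 : ℝ))) * Y := by
    intro e he
    rw [mem_Icc] at he
    have he0 : (0:ℝ) < e := by exact_mod_cast (by omega : 0 < e)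
    rw [← Finset.sum_filter, Finset.sum_const, nsmul_eq_mul]
    have hcard : (((Icc 1 Y).filter (fun r => e ∣ r)).card : ℝ) ≤ (Y : ℝ) / e := by
      have h3 : ((Icc 1 Y).filter (fun r => e ∣ r)).card ≤ Y / e := by
        have h4 := Nat.card_multiples Y e
        have h5 : (Icc 1 Y).filter (fun r => e ∣ r) ⊆ ((Finset.range Y).filter (fun x => e ∣ x + 1)).image (fun x => x + 1) := by
          intro r hr
          rw [mem_filter, mem_Icc] at hr
          rw [mem_image]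
          refine ⟨r - 1, ?_, by omega⟩
          rw [mem_filter, mem_range]
          refine ⟨by omega, ?_⟩
          rw [Nat.sub_add_cancel hr.1.1]
          exact hr.2
        refine (card_le_card h5).trans (card_image_le.trans ?_)
        rw [h4]
      calc (((Icc 1 Y).filter (fun r => e ∣ r)).card : ℝ) ≤ ((Y / e : ℕ) : ℝ) := by exact_mod_cast h3
        _ ≤ _ := Nat.cast_div_le
    have h5 : (e.divisors.card : ℝ) ^ 3 ≤ C ^ 3 * (e:ℝ) ^ (1/2 : ℝ) := by
      have h6 := pow_le_pow_left₀ (by positivity) (hC e he.1) 3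
      rw [mul_pow, ← Real.rpow_natCast ((e:ℝ) ^ (1/6:ℝ)) 3, ← Real.rpow_mul he0.le] at h6
      norm_num at h6 ⊢
      exact h6
    have h6 : (e.divisors.card : ℝ) ^ 3 / (e * e) ≤ C ^ 3 * (1 / (e:ℝ) ^ (3/2 : ℝ)) := by
      have h7 : (e:ℝ) * e = (e:ℝ) ^ (1/2:ℝ) * (e:ℝ) ^ (3/2:ℝ) := by
        rw [← Real.rpow_add he0, ← pow_two, ← Real.rpow_natCast]; norm_num
      rw [h7, div_le_iff₀ (by positivity)]
      have h8 : C ^ 3 * (1 / (e:ℝ) ^ (3/2 : ℝ)) * ((e:ℝ) ^ (1/2:ℝ) * (e:ℝ) ^ (3/2:ℝ)) = C ^ 3 * (e:ℝ) ^ (1/2:ℝ) := by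
        field_simp
      rw [h8]; exact h5
    calc (((Icc 1 Y).filter (fun r => e ∣ r)).card : ℝ) * ((e.divisors.card : ℝ) ^ 3 / e)
        ≤ ((Y : ℝ) / e) * ((e.divisors.card : ℝ) ^ 3 / e) :=
          mul_le_mul_of_nonneg_right hcard (by positivity)
      _ = ((e.divisors.card : ℝ) ^ 3 / (e * e)) * Y := by field_simp
      _ ≤ _ := mul_le_mul_of_nonneg_right h6 (Nat.cast_nonneg _)
  refine (Finset.sum_le_sum h2).trans ?_
  rw [← Finset.sum_mul]
  have h3 : ∑ e ∈ Icc 1 Y, C ^ 3 * (1 / (e:ℝ) ^ (3/2 : ℝ)) ≤ D :=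
    hsum.sum_le_tsum _ (fun _ _ => by positivity)
  exact mul_le_mul_of_nonneg_right (by linarith) (Nat.cast_nonneg _)

/-- both signs -/
theorem sum_ratio2Z {C : ℝ} (hC : ∀ Y : ℕ, ∑ r ∈ Icc 1 Y, ((r : ℝ) / (Nat.totient r : ℝ)) ^ 2 ≤ C * Y)
    (σ : ℤ) (W : Finset ℤ) (Y : ℕ) (hW : ∀ z ∈ W, z + σ ≠ 0 ∧ (z + σ).natAbs ≤ Y) :
    ∑ z ∈ W, (((z + σ).natAbs : ℝ) / ((z + σ).natAbs.totient : ℝ)) ^ 2 ≤ 2 * (C * Y) := by
  have h1 : ∑ z ∈ W, (((z + σ).natAbs : ℝ) / ((z + σ).natAbs.totient : ℝ)) ^ 2 =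
      ∑ r ∈ Icc 1 Y, ∑ z ∈ W.filter (fun z => (z + σ).natAbs = r),
        (((z + σ).natAbs : ℝ) / ((z + σ).natAbs.totient : ℝ)) ^ 2 := by
    rw [sum_fiberwise_of_maps_to]
    intro z hz
    obtain ⟨h2, h3⟩ := hW z hz
    rw [mem_Icc]
    exact ⟨Int.natAbs_pos.2 h2, h3⟩
  rw [h1]
  have h2 : ∀ r ∈ Icc 1 Y, ∑ z ∈ W.filter (fun z => (z + σ).natAbs = r),
        (((z + σ).natAbs : ℝ) / ((z + σ).natAbs.totient : ℝ)) ^ 2 ≤ 2 * ((r : ℝ) / (Nat.totient r : ℝ)) ^ 2 := by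
    intro r _
    have h3 : ∀ z ∈ W.filter (fun z => (z + σ).natAbs = r),
        (((z + σ).natAbs : ℝ) / ((z + σ).natAbs.totient : ℝ)) ^ 2 ≤ ((r : ℝ) / (Nat.totient r : ℝ)) ^ 2 := by
      intro z hz
      rw [mem_filter] at hz
      rw [hz.2]
    refine (sum_le_card_nsmul _ _ _ h3).trans ?_
    rw [nsmul_eq_mul]
    have h4 : (W.filter (fun z => (z + σ).natAbs = r)).card ≤ 2 := by
      have h5 : W.filter (fun z => (z + σ).natAbs = r) ⊆ {(r : ℤ) - σ, -(r : ℤ) - σ} := by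
        intro z hz
        rw [mem_filter] at hz
        rw [mem_insert, mem_singleton]
        omega
      exact (card_le_card h5).trans card_le_two
    have h6 : ((W.filter (fun z => (z + σ).natAbs = r)).card : ℝ) ≤ 2 := by exact_mod_cast h4
    exact mul_le_mul_of_nonneg_right h6 (by positivity)
  refine (sum_le_sum h2).trans ?_
  rw [← mul_sum]
  exact mul_le_mul_of_nonneg_left (hC Y) (by norm_num)

/-- quadratic polynomials -/
theorem quad_pt (a b : ℤ) (ha : a ≠ 0) (d : ℕ) (hd : Squarefree d) : ∃ c : ℝ, 0 < c ∧ ∀ᶠ X : ℝ in atTop,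
    ∀ h : ℕ, h.Coprime d → ∀ t : ℤ, |(t : ℝ)| ≤ c * ff X →
    ∀ bad : Finset ℕ, (bad.card : ℝ) ≤ X ^ (9 / 10 : ℝ) →
    ∃ p : ℕ, p.Prime ∧ X < p ∧ (p : ℝ) ≤ 3 * X ∧ p ∉ bad ∧ p ≡ h [MOD d] ∧
      ∀ m : ℤ, |(m : ℝ)| ≤ c * ff X → a * m ^ 2 + b * m ≠ a * t ^ 2 + b * t →
      ∃ q : ℕ, q.Prime ∧ (q : ℝ) ≤ X ^ (1 / 1000 : ℝ) ∧
        (q : ℤ) ∣ p + (a * t ^ 2 + b * t) - (a * m ^ 2 + b * m) := by
  classical
  have hd0 : d ≠ 0 := hd.ne_zero
  have haN : a.natAbs ≠ 0 := Int.natAbs_ne_zero.2 ha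
  obtain ⟨g, hg⟩ : ∃ g : ℕ, g = 2 * a.natAbs * d := ⟨_, rfl⟩
  have hg0 : g ≠ 0 := by
    rw [hg]
    positivity
  obtain ⟨C, hC0, hC⟩ := sum_ratio2
  obtain ⟨c₀, hc₀, hone⟩ := oneK 2 3 2 (g : ℝ)
  obtain ⟨α₀, hα₀⟩ : ∃ α₀ : ℝ, α₀ = (a.natAbs : ℝ) := ⟨_, rfl⟩
  have hα1 : 1 ≤ α₀ := by
    rw [hα₀]
    exact_mod_cast Nat.one_le_iff_ne_zero.2 haN
  have hα0 : |(a : ℝ)| = α₀ := by rw [hα₀, Nat.cast_natAbs, Int.cast_abs]
  obtain ⟨c, hcdef⟩ : ∃ c : ℝ, c = min (c₀ / (40 * (C + 1) * α₀)) (1 / (40 * α₀)) := ⟨_, rfl⟩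
  have hc : 0 < c := by rw [hcdef]; positivity
  have hcA : 40 * (C + 1) * α₀ * c ≤ c₀ := by
    have h1 : c ≤ c₀ / (40 * (C + 1) * α₀) := by rw [hcdef]; exact min_le_left _ _
    rw [le_div_iff₀ (by positivity)] at h1
    linarith
  have hcB : 40 * α₀ * c ≤ 1 := by
    have h1 : c ≤ 1 / (40 * α₀) := by rw [hcdef]; exact min_le_right _ _
    rw [le_div_iff₀ (by positivity)] at h1
    linarith
  refine ⟨c, hc, ?_⟩
  have t1 := Real.tendsto_log_atTop
  have t2 : Tendsto (fun y : ℝ => Real.log (Real.log y)) atTop atTop := t1.comp t1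
  filter_upwards [hone d hd, ff_bounds, t1.eventually_ge_atTop (g : ℝ), t1.eventually_ge_atTop 2,
    t2.eventually_ge_atTop 2, eventually_ge_atTop (4 : ℝ),
    t1.eventually_ge_atTop (|(b : ℝ)| / c), t1.eventually_ge_atTop (1 / c), t1.eventually_ge_atTop α₀,
    t1.eventually (Pool.Agent.H378R2.ev_pow_exp 9 1 1 one_pos)]
    with X hX hff hLg hL2 hLL2 hX4 hLb hLc hLa hE
  intro h hh t ht bad hbad
  have hX0 : 0 < X := by linarith
  have hX1 : 1 ≤ X := by linarith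
  set L := Real.log X with hL
  set ℓ := Real.log L with hℓ
  have hL0 : 0 < L := by linarith
  have hL1 : 1 ≤ L := by linarith
  have hℓ0 : 0 < ℓ := by linarith
  have hLL : ℓ ≤ L := (Real.log_le_sub_one_of_pos hL0).trans (by linarith)
  have hE' : L ^ 9 ≤ X := by
    rw [one_mul, one_mul, hL, Real.exp_log hX0] at hE
    exact hE
  have hffL : L ≤ ff X := hff.1
  have hff0 : 0 < ff X := by linarith
  set F := c * ff X with hF
  have hF0 : 0 < F := by positivity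
  have hbF : |(b : ℝ)| ≤ F := by
    rw [div_le_iff₀ hc] at hLb
    calc |(b : ℝ)| ≤ L * c := hLb
      _ ≤ ff X * c := mul_le_mul_of_nonneg_right hffL hc.le
      _ = F := by ring
  have h1F : 1 ≤ F := by
    rw [div_le_iff₀ hc] at hLc
    calc 1 ≤ L * c := hLc
      _ ≤ ff X * c := mul_le_mul_of_nonneg_right hffL hc.le
      _ = F := by ring
  have hFL : 40 * α₀ * F ≤ L * ℓ ^ 2 := by
    calc 40 * α₀ * F = (40 * α₀ * c) * ff X := by rw [hF]; ring
      _ ≤ 1 * ff X := mul_le_mul_of_nonneg_right hcB hff0.le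
      _ ≤ L * ℓ ^ 2 := by rw [one_mul]; exact hff.2
  have hFL3 : 40 * α₀ * F ≤ L ^ 3 := by
    refine hFL.trans ?_
    calc L * ℓ ^ 2 ≤ L * L ^ 2 := by gcongr
      _ = L ^ 3 := by ring
  -- the shift
  obtain ⟨σ, hσ⟩ : ∃ σ : ℤ, σ = 2 * a * t + b := ⟨_, rfl⟩
  have hαF : F ≤ α₀ * F := by nlinarith
  have hσR : |(σ : ℝ)| ≤ 3 * (α₀ * F) := by
    rw [hσ]
    push_cast
    calc |2 * (a : ℝ) * t + b| ≤ |2 * (a : ℝ) * t| + |(b : ℝ)| := abs_add_le _ _
      _ = 2 * (α₀ * |(t : ℝ)|) + |(b : ℝ)| := by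
          rw [abs_mul, abs_mul, hα0]
          norm_num
          ring
      _ ≤ 2 * (α₀ * F) + F := by
          have : α₀ * |(t : ℝ)| ≤ α₀ * F := mul_le_mul_of_nonneg_left ht (by linarith)
          linarith
      _ ≤ _ := by linarith
  obtain ⟨M, hM⟩ : ∃ M : ℕ, M = ⌊F⌋₊ := ⟨_, rfl⟩
  have hMF : (M : ℝ) ≤ F := by rw [hM]; exact Nat.floor_le hF0.le
  -- all the admissible `z = a (m - t)`
  obtain ⟨W, hW⟩ : ∃ W : Finset ℤ, W = ((Icc (-(M : ℤ)) M).filter
      (fun m => a * m ^ 2 + b * m ≠ a * t ^ 2 + b * t)).image (fun m => a * (m - t)) := ⟨_, rfl⟩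
  have hWmem : ∀ z ∈ W, z ≠ 0 ∧ z + σ ≠ 0 ∧ |(z : ℝ)| ≤ 2 * (α₀ * F) := by
    intro z hz
    rw [hW, mem_image] at hz
    obtain ⟨m, hm, rfl⟩ := hz
    rw [mem_filter, mem_Icc] at hm
    obtain ⟨⟨hm1, hm2⟩, hm3⟩ := hm
    have hid : a * (m - t) * (a * (m - t) + σ) = a * ((a * m ^ 2 + b * m) - (a * t ^ 2 + b * t)) := by
      rw [hσ]; ring
    have hne : a * (m - t) * (a * (m - t) + σ) ≠ 0 := by
      rw [hid]
      exact mul_ne_zero ha (sub_ne_zero.2 hm3)
    refine ⟨left_ne_zero_of_mul hne, right_ne_zero_of_mul hne, ?_⟩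
    push_cast
    rw [abs_mul, hα0]
    have h1 : |(m : ℝ)| ≤ F := by
      rw [abs_le]
      have h2 : (-(M : ℝ)) ≤ m := by exact_mod_cast hm1
      have h3 : (m : ℝ) ≤ M := by exact_mod_cast hm2
      constructor <;> linarith
    calc α₀ * |(m : ℝ) - t| ≤ α₀ * (|(m : ℝ)| + |(t : ℝ)|) :=
          mul_le_mul_of_nonneg_left (abs_sub _ _) (by linarith)
      _ ≤ α₀ * (F + F) := mul_le_mul_of_nonneg_left (by linarith) (by linarith)
      _ = _ := by ring
  -- one representative for each value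
  obtain ⟨Z, hZW, hZim⟩ : ∃ Z : Finset ℤ, Z ⊆ W ∧ (∀ z ∈ W, ∃ w ∈ Z, w * (w + σ) = z * (z + σ)) ∧
      (∀ k ∈ Z, ∀ l ∈ Z, k * (k + σ) = l * (l + σ) → k = l) := by
    have hr : ∀ y : ℤ, ∃ z : ℤ, y ∈ W.image (fun z => z * (z + σ)) → z ∈ W ∧ z * (z + σ) = y := by
      intro y
      by_cases hy : y ∈ W.image (fun z => z * (z + σ))
      · obtain ⟨z, hz, hzy⟩ := mem_image.1 hy
        exact ⟨z, fun _ => ⟨hz, hzy⟩⟩
      · exact ⟨0, fun h => absurd h hy⟩
    choose s hs using hr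
    refine ⟨(W.image (fun z => z * (z + σ))).image s, ?_, ?_, ?_⟩
    · intro z hz
      obtain ⟨y, hy, rfl⟩ := mem_image.1 hz
      exact (hs y hy).1
    · intro z hz
      have hy : z * (z + σ) ∈ W.image (fun z => z * (z + σ)) := mem_image_of_mem _ hz
      exact ⟨s (z * (z + σ)), mem_image_of_mem _ hy, (hs _ hy).2⟩
    · intro k hk l hl hkl
      obtain ⟨y, hy, rfl⟩ := mem_image.1 hk
      obtain ⟨y', hy', rfl⟩ := mem_image.1 hl
      rw [(hs y hy).2, (hs y' hy').2] at hkl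
      rw [hkl]
  obtain ⟨hZsurj, hZinj⟩ := hZim
  have hgL2 : (g : ℝ) ≤ L ^ 2 := by nlinarith
  have habsL : ∀ z ∈ Z, |(z : ℝ)| ≤ 2 * (α₀ * F) := fun z hz => (hWmem z (hZW hz)).2.2
  obtain ⟨p, hp, hXp, hp3, hpb, hpd, hmain⟩ := hX (fun _ => a) (fun z => - (z * (z + σ))) g hg0
    (by rw [hg]; exact dvd_mul_left _ _) (sum_inv_le_self g) hgL2 ![0, -σ]
    (fun p => if (p : ℤ) ∣ 1 + σ then 2 else 1)
    (by
      intro j
      fin_cases j
      · simp only [Fin.zero_eta, Fin.isValue, Matrix.cons_val_zero, Int.cast_zero, abs_zero]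
        positivity
      · simp only [Fin.mk_one, Fin.isValue, Matrix.cons_val_one, Matrix.cons_val_zero, Int.cast_neg, abs_neg]
        refine hσR.trans ?_
        have h1 : L * ℓ ^ 2 ≤ 10 * L ^ 2 := by
          have h2 : ℓ ^ 2 ≤ 10 * L := by
            have h3 : ℓ / 2 ≤ Real.exp (ℓ / 2) := (by linarith [Real.add_one_le_exp (ℓ / 2)])
            have h4 : Real.exp (ℓ / 2) ^ 2 = L := by
              rw [← Real.exp_nat_mul]
              push_cast
              rw [mul_div_cancel₀ ℓ (two_ne_zero), hℓ, Real.exp_log hL0]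
            have h5 : (ℓ / 2) ^ 2 ≤ L := by
              rw [← h4]
              exact pow_le_pow_left₀ (by linarith) h3 2
            nlinarith
          nlinarith
        nlinarith)
    (by
      intro p hp hpg j
      have hp2 : ¬ (p : ℤ) ∣ 2 := by
        intro h1
        apply hpg
        rw [hg, mul_assoc]
        have h2 : p ∣ 2 := by exact_mod_cast h1
        exact h2.mul_right _
      have hp1 : ¬ (p : ℤ) ∣ 1 := by
        intro h1
        exact hp2 (h1.trans (one_dvd _))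
      fin_cases j
      · simp only [Fin.zero_eta, Fin.isValue, Matrix.cons_val_zero, sub_zero]
        split_ifs
        · exact hp2
        · exact hp1
      · simp only [Fin.mk_one, Fin.isValue, Matrix.cons_val_one, Matrix.cons_val_zero, sub_neg_eq_add]
        split_ifs with h1
        · intro h2
          apply hp1
          have h3 := dvd_sub h2 h1
          have h4 : (2 + σ - (1 + σ) : ℤ) = 1 := by ring
          rwa [h4] at h3
        · exact h1)
    (by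
      intro r hr hrg cc hcc
      have hrp := Nat.prime_iff_prime_int.1 hr
      have hra : ¬ (r : ℤ) ∣ a := by
        intro h1
        apply hrg
        rw [hg, mul_comm 2, mul_assoc]
        exact (Int.natCast_dvd.1 h1).mul_right _
      have hc0 : ¬ (r : ℤ) ∣ cc := by
        have := hcc 0
        simpa using this
      have hc1 : ¬ (r : ℤ) ∣ cc + σ := by
        have := hcc 1
        simpa using this
      obtain ⟨ρ, hρ⟩ := solve r hr a (- (cc * (cc + σ))) hra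
      refine ⟨ρ, ?_, ?_⟩
      · intro h1
        have h2 : (r : ℤ) ∣ (ρ : ℤ) := Int.natCast_dvd_natCast.2 h1
        have h3 := dvd_sub hρ (h2.mul_left a)
        rw [add_sub_cancel_left, dvd_neg] at h3
        rcases hrp.dvd_mul.1 h3 with h4 | h4
        · exact hc0 h4
        · exact hc1 h4
      · intro z n h1 h2
        have h3 : a * n + -(z * (z + σ)) = a * (n - ρ) + (-(z + cc + σ)) * (z - cc) +
            (a * ρ + -(cc * (cc + σ))) := by ring
        show (r : ℤ) ∣ a * n + -(z * (z + σ))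
        rw [h3]
        exact dvd_add (dvd_add (h2.mul_left _) (h1.mul_left _)) hρ) h hh bad hbad
    Z
    (by
      intro z hz
      refine (habsL z hz).trans ?_
      have h1 : L * ℓ ^ 2 ≤ L * ℓ ^ 3 := by
        apply mul_le_mul_of_nonneg_left _ hL0.le
        exact pow_le_pow_right₀ (by linarith) (by norm_num)
      nlinarith)
    (by
      intro z hz j
      obtain ⟨h1, h2, _⟩ := hWmem z (hZW hz)
      fin_cases j
      · simpa using h1
      · simp only [Fin.mk_one, Fin.isValue, Matrix.cons_val_one, Matrix.cons_val_zero, ne_eq]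
        intro h3
        apply h2
        rw [h3]
        ring)
    (by
      intro z hz
      obtain ⟨h1, h2, _⟩ := hWmem z (hZW hz)
      exact ⟨ha, neg_ne_zero.2 (mul_ne_zero h1 h2)⟩)
    (by
      intro z hz
      have h1 := habsL z hz
      have hXX : X ≤ X ^ 2 := by nlinarith
      have hαL : α₀ * F ≤ L ^ 3 := by
        have : 0 ≤ α₀ * F := by positivity
        linarith
      constructor
      · rw [hα0]
        have : L ≤ L ^ 9 := by
          calc L = L ^ 1 := (pow_one _).symm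
            _ ≤ L ^ 9 := pow_le_pow_right₀ hL1 (by norm_num)
        linarith
      · push_cast
        rw [abs_neg, abs_mul]
        have h2 : |(z : ℝ) + σ| ≤ 5 * (α₀ * F) := by
          calc |(z : ℝ) + σ| ≤ |(z : ℝ)| + |(σ : ℝ)| := abs_add_le _ _
            _ ≤ 2 * (α₀ * F) + 3 * (α₀ * F) := add_le_add h1 hσR
            _ = _ := by ring
        have h3 : 5 * (α₀ * F) ≤ L ^ 3 := by
          have : 0 ≤ α₀ * F := by positivity
          linarith
        have h4 : 2 * (α₀ * F) ≤ L ^ 3 := by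
          have : 0 ≤ α₀ * F := by positivity
          linarith
        calc |(z : ℝ)| * |(z : ℝ) + σ| ≤ L ^ 3 * L ^ 3 :=
              mul_le_mul (h1.trans h4) (h2.trans h3) (abs_nonneg _) (by positivity)
          _ = L ^ 6 := by ring
          _ ≤ L ^ 9 := pow_le_pow_right₀ hL1 (by norm_num)
          _ ≤ X := hE'
          _ ≤ X ^ 2 := hXX)
    (by
      intro k hk l hl hkl heq
      apply hkl
      apply hZinj k hk l hl
      have h1 : a * (k * (k + σ)) = a * (l * (l + σ)) := by linear_combination heq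
      exact mul_left_cancel₀ ha h1)
    (by
      obtain ⟨Y, hY⟩ : ∃ Y : ℕ, Y = ⌊5 * (α₀ * F)⌋₊ := ⟨_, rfl⟩
      have hYF : (Y : ℝ) ≤ 5 * (α₀ * F) := by rw [hY]; exact Nat.floor_le (by positivity)
      have hb1 : ∀ z ∈ Z, z + 0 ≠ 0 ∧ (z + 0).natAbs ≤ Y := by
        intro z hz
        refine ⟨by simpa using (hWmem z (hZW hz)).1, ?_⟩
        rw [hY]
        apply Nat.le_floor
        rw [Nat.cast_natAbs, Int.cast_abs, add_zero]
        have := habsL z hz
        have h2 : 0 ≤ α₀ * F := by positivity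
        linarith
      have hb2 : ∀ z ∈ Z, z + σ ≠ 0 ∧ (z + σ).natAbs ≤ Y := by
        intro z hz
        refine ⟨(hWmem z (hZW hz)).2.1, ?_⟩
        rw [hY]
        apply Nat.le_floor
        rw [Nat.cast_natAbs, Int.cast_abs]
        push_cast
        calc |(z : ℝ) + σ| ≤ |(z : ℝ)| + |(σ : ℝ)| := abs_add_le _ _
          _ ≤ 2 * (α₀ * F) + 3 * (α₀ * F) := add_le_add (habsL z hz) hσR
          _ = _ := by ring
      have hs1 := sum_ratio2Z hC 0 Z Y hb1
      have hs2 := sum_ratio2Z hC σ Z Y hb2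
      have hpt : ∀ z ∈ Z, wZ ![0, -σ] z ≤ (((z + 0).natAbs : ℝ) / ((z + 0).natAbs.totient : ℝ)) ^ 2 +
          (((z + σ).natAbs : ℝ) / ((z + σ).natAbs.totient : ℝ)) ^ 2 := by
        intro z _
        unfold wZ
        rw [Fin.prod_univ_two]
        simp only [Fin.isValue, Matrix.cons_val_zero, sub_zero, Matrix.cons_val_one, sub_neg_eq_add, add_zero]
        nlinarith [sq_nonneg (((z.natAbs : ℝ) / (z.natAbs.totient : ℝ)) -
          (((z + σ).natAbs : ℝ) / ((z + σ).natAbs.totient : ℝ))),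
          sq_nonneg ((z.natAbs : ℝ) / (z.natAbs.totient : ℝ)),
          sq_nonneg (((z + σ).natAbs : ℝ) / ((z + σ).natAbs.totient : ℝ))]
      refine (sum_le_sum hpt).trans ?_
      rw [sum_add_distrib]
      have h3 : C * Y ≤ C * (5 * (α₀ * F)) := mul_le_mul_of_nonneg_left hYF hC0.le
      have h4 : 40 * (C + 1) * α₀ * c * ff X ≤ c₀ * ff X := mul_le_mul_of_nonneg_right hcA hff0.le
      have h5 : 0 ≤ α₀ * F := by positivity
      have h6 : 40 * (C + 1) * α₀ * c * ff X = 40 * (C + 1) * (α₀ * F) := by rw [hF]; ring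
      rw [h6] at h4
      nlinarith)
  refine ⟨p, hp, hXp, hp3, hpb, hpd, fun m hm hne => ?_⟩
  have hmW : a * (m - t) ∈ W := by
    rw [hW]
    refine mem_image_of_mem _ ?_
    rw [mem_filter, mem_Icc]
    refine ⟨?_, hne⟩
    have h1 : m.natAbs ≤ M := by
      rw [hM]
      apply Nat.le_floor
      rw [Nat.cast_natAbs, Int.cast_abs]
      exact hm
    omega
  obtain ⟨w, hw, hwe⟩ := hZsurj _ hmW
  obtain ⟨q, hq, hqX, hqg, hqd⟩ := hmain w hw
  refine ⟨q, hq, hqX, ?_⟩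
  have hqp := Nat.prime_iff_prime_int.1 hq
  have hqa : ¬ (q : ℤ) ∣ a := by
    intro h1
    apply hqg
    rw [hg, mul_comm 2, mul_assoc]
    exact (Int.natCast_dvd.1 h1).mul_right _
  have h1 : a * (p : ℤ) + -(w * (w + σ)) = a * (p + (a * t ^ 2 + b * t) - (a * m ^ 2 + b * m)) := by
    rw [hwe, hσ]
    ring
  have h2 : (q : ℤ) ∣ a * (p + (a * t ^ 2 + b * t) - (a * m ^ 2 + b * m)) := by
    rw [← h1]
    exact hqd
  rcases hqp.dvd_mul.1 h2 with h3 | h3
  · exact absurd h3 hqa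
  · exact h3

end Pool.Agent.X34.M
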