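import Pool.Agent.X34.M.M11

set_option autoImplicit false
set_option maxHeartbeats 4000000

/-! # Records for the least argument in `N = f(m) + p`, `f` quadratic: final form -/

namespace Pool.Agent.X34.M

open Finset Filter
open Pool.Agent.H256R2.SC (ff)

theorem quad_final (a b e : ℤ) (ha : a ≠ 0) (d : ℕ) (hd : Squarefree d) : ∃ κ : ℝ, 0 < κ ∧ ∃ X₀ : ℝ,
    ∀ X : ℝ, X₀ ≤ X → ∀ h : ℕ, h.Coprime d → ∀ t : ℤ, |(t : ℝ)| ≤ κ * ff X →
    X ^ (9 / 10 : ℝ) ≤ ({p : ℕ | p.Prime ∧ X < p ∧ (p : ℝ) ≤ 3 * X ∧ p ≡ h [MOD d] ∧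
      ∀ m : ℤ, |(m : ℝ)| ≤ κ * ff p → a * m ^ 2 + b * m + e = a * t ^ 2 + b * t + e ∨
        ¬ (a * t ^ 2 + b * t + e + p - (a * m ^ 2 + b * m + e)).natAbs.Prime}.ncard : ℝ) := by
  obtain ⟨c, hc, hX⟩ := quad_pt a b ha d hd
  have t1 := Real.tendsto_log_atTop
  have t2 : Tendsto (fun y : ℝ => Real.log (Real.log y)) atTop atTop := t1.comp t1
  obtain ⟨X₀, hX₀⟩ := eventually_atTop.1 (hX.and (ff_le.and (ff_bounds.and
    ((t1.eventually_ge_atTop 1).and ((t2.eventually_ge_atTop 1).and ((eventually_ge_atTop (16 : ℝ)).and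
    ((t1.eventually_ge_atTop (c * (c * |(a : ℝ)| + |(b : ℝ)|))).and
    (t1.eventually (Pool.Agent.H378R2.ev_pow_exp 9 (1 / 2) 1 (by norm_num))))))))))
  refine ⟨c / 16, by positivity, X₀, fun X hXX h hh t ht => ?_⟩
  obtain ⟨hX1, hX2, hff, hL1, hLL1, hX16, hLc, hE⟩ := hX₀ X hXX
  have hX0 : 0 < X := by linarith
  set L := Real.log X with hL
  have hL0 : 0 < L := by linarith
  have hLL : Real.log L ≤ L := (Real.log_le_sub_one_of_pos hL0).trans (by linarith)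
  have hsq : Real.exp (1 / 2 * L) = Real.sqrt X := by
    rw [Real.sqrt_eq_rpow, Real.rpow_def_of_pos hX0, ← hL]
    congr 1
    ring
  have hE' : L ^ 9 ≤ Real.sqrt X := by
    rw [one_mul, hsq] at hE
    exact hE
  have hs4 : 4 ≤ Real.sqrt X := by
    rw [show (4 : ℝ) = Real.sqrt 16 by
      rw [show (16 : ℝ) = 4 ^ 2 by norm_num, Real.sqrt_sq (by norm_num)]]
    exact Real.sqrt_le_sqrt hX16
  have hss : Real.sqrt X * Real.sqrt X = X := Real.mul_self_sqrt hX0.le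
  have hff0 : 0 < ff X := lt_of_lt_of_le hL0 hff.1
  have hffL : ff X ≤ L ^ 3 := by
    refine hff.2.trans ?_
    calc L * (Real.log L) ^ 2 ≤ L * L ^ 2 := by gcongr
      _ = L ^ 3 := by ring
  set S := {p : ℕ | p.Prime ∧ X < p ∧ (p : ℝ) ≤ 3 * X ∧ p ≡ h [MOD d] ∧
      ∀ m : ℤ, |(m : ℝ)| ≤ c / 16 * ff p → a * m ^ 2 + b * m + e = a * t ^ 2 + b * t + e ∨
        ¬ (a * t ^ 2 + b * t + e + p - (a * m ^ 2 + b * m + e)).natAbs.Prime} with hS
  have hfin : S.Finite := by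
    apply (Set.finite_Iic ⌊3 * X⌋₊).subset
    intro p hp
    exact Set.mem_Iic.2 (Nat.le_floor hp.2.2.1)
  by_contra hcon
  push Not at hcon
  rw [Set.ncard_eq_toFinset_card S hfin] at hcon
  have ht' : |(t : ℝ)| ≤ c * ff X := by
    have : 0 < c * ff X := by positivity
    linarith
  obtain ⟨p, hp, hXp, hp3, hpb, hpd, hmain⟩ := hX1 h hh t ht' hfin.toFinset hcon.le
  apply hpb
  rw [Set.Finite.mem_toFinset]
  refine ⟨hp, hXp, hp3, hpd, fun m hm => ?_⟩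
  by_cases heq : a * m ^ 2 + b * m = a * t ^ 2 + b * t
  · left
    rw [heq]
  right
  have hm' : |(m : ℝ)| ≤ c * ff X := by
    refine hm.trans ?_
    have h1 := hX2 p hXp.le hp3
    calc c / 16 * ff p ≤ c / 16 * (16 * ff X) := mul_le_mul_of_nonneg_left h1 (by positivity)
      _ = _ := by ring
  obtain ⟨q, hq, hqX, hqd⟩ := hmain m hm' heq
  -- sizes
  have hval : ∀ x : ℤ, |(x : ℝ)| ≤ c * ff X → |((a * x ^ 2 + b * x : ℤ) : ℝ)| ≤ L ^ 7 := by
    intro x hx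
    have hF0 : 0 ≤ c * ff X := by positivity
    push_cast
    calc |(a : ℝ) * x ^ 2 + b * x| ≤ |(a : ℝ) * x ^ 2| + |(b : ℝ) * x| := abs_add_le _ _
      _ = |(a : ℝ)| * |(x : ℝ)| ^ 2 + |(b : ℝ)| * |(x : ℝ)| := by rw [abs_mul, abs_mul, abs_pow]
      _ ≤ |(a : ℝ)| * (c * ff X) ^ 2 + |(b : ℝ)| * (c * ff X) := by
          gcongr
      _ ≤ |(a : ℝ)| * (c * L ^ 3) ^ 2 + |(b : ℝ)| * (c * L ^ 3) := by
          gcongr
      _ = c * (c * |(a : ℝ)|) * L ^ 6 + c * |(b : ℝ)| * L ^ 3 := by ring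
      _ ≤ c * (c * |(a : ℝ)|) * L ^ 6 + c * |(b : ℝ)| * L ^ 6 := by
          have h1 : L ^ 3 ≤ L ^ 6 := pow_le_pow_right₀ hL1 (by norm_num)
          have h2 : 0 ≤ c * |(b : ℝ)| := by positivity
          nlinarith
      _ = (c * (c * |(a : ℝ)| + |(b : ℝ)|)) * L ^ 6 := by ring
      _ ≤ L * L ^ 6 := mul_le_mul_of_nonneg_right hLc (by positivity)
      _ = L ^ 7 := by ring
  have h7 : L ^ 7 ≤ Real.sqrt X := (pow_le_pow_right₀ hL1 (by norm_num)).trans hE'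
  have hv1 := hval t ht'
  have hv2 := hval m hm'
  rw [abs_le] at hv1 hv2
  obtain ⟨N, hN⟩ : ∃ N : ℤ, N = a * t ^ 2 + b * t + e + p - (a * m ^ 2 + b * m + e) := ⟨_, rfl⟩
  rw [← hN]
  have hNR : Real.sqrt X < (N : ℝ) := by
    have h1 : (N : ℝ) = ((a * t ^ 2 + b * t : ℤ) : ℝ) + p - ((a * m ^ 2 + b * m : ℤ) : ℝ) := by
      rw [hN]
      push_cast
      ring
    rw [h1]
    nlinarith [hv1.1, hv2.2]
  have hqN : (q : ℝ) < (N : ℝ) := by
    refine lt_of_le_of_lt (hqX.trans ?_) hNR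
    rw [Real.sqrt_eq_rpow]
    exact Real.rpow_le_rpow_of_exponent_le (by linarith) (by norm_num)
  have hN0 : 0 < N := by
    have : (0 : ℝ) < (N : ℝ) := lt_of_le_of_lt (Nat.cast_nonneg q) hqN
    exact_mod_cast this
  have hqN' : (q : ℤ) < N := by exact_mod_cast hqN
  have hqd' : (q : ℤ) ∣ N := by
    rw [hN]
    have h1 : a * t ^ 2 + b * t + e + p - (a * m ^ 2 + b * m + e) =
        p + (a * t ^ 2 + b * t) - (a * m ^ 2 + b * m) := by ring
    rw [h1]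
    exact hqd
  intro hpr
  have h1 : q ∣ N.natAbs := Int.natCast_dvd.1 hqd'
  have h2 := (Nat.prime_dvd_prime_iff_eq hq hpr).1 h1
  omega

end Pool.Agent.X34.M
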