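import Pool.Agent.X34.M.M2
import Pool.Agent.TH101.RG.PatZ

set_option autoImplicit false
set_option maxHeartbeats 4000000

/-! # Primes `p` such that `(k p + j) / i` is not prime for all multipliers `k` of a set of record size -/

namespace Pool.Agent.X34.M

open Finset Filter
open Pool.Agent.H256R2.SC (ff)
open Pool.Agent.H312R2.RG (ev_ff)
open Pool.Agent.TH101.RG

/-- arbitrary sets of multipliers -/
theorem avoidZ (A J d : ℕ) (hd : Squarefree d) : ∃ c : ℝ, 0 < c ∧ ∀ᶠ X : ℝ in atTop, ∀ h : ℕ, h.Coprime d →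
    ∀ Z : Finset ℤ, (∀ z ∈ Z, z ≠ 0 ∧ |(z : ℝ)| ≤ Real.log X * (Real.log (Real.log X)) ^ A) →
    ∑ z ∈ Z, ((z.natAbs : ℝ) / (z.natAbs.totient : ℝ)) ≤ c * ff X →
    ∀ bad : Finset ℕ, (bad.card : ℝ) ≤ X ^ (9 / 10 : ℝ) →
    ∃ p : ℕ, p.Prime ∧ X < p ∧ (p : ℝ) ≤ 3 * X ∧ p ∉ bad ∧ p ≡ h [MOD d] ∧
      ∀ z ∈ Z, ∀ i j : ℤ, 1 ≤ |i| → |i| ≤ J → 1 ≤ |j| → |j| ≤ J → ∀ q : ℕ, q.Prime → z * p + j ≠ i * q := by
  obtain ⟨ℓ, hℓ⟩ : ∃ ℓ : ℕ, ℓ = J.factorial := ⟨_, rfl⟩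
  have hℓ0 : 0 < ℓ := by rw [hℓ]; exact Nat.factorial_pos J
  have hℓr : (1 : ℝ) ≤ ℓ := by exact_mod_cast hℓ0
  have hd0 : d ≠ 0 := hd.ne_zero
  have hd0' : 0 < d := Nat.pos_of_ne_zero hd0
  obtain ⟨c₁, hc₁, hone⟩ := oneZ (A + 1) 2 (ℓ + d)
  refine ⟨c₁ / (3 * ℓ * ℓ), by positivity, ?_⟩
  have t1 := Real.tendsto_log_atTop
  have t2 : Tendsto (fun y : ℝ => Real.log (Real.log y)) atTop atTop := t1.comp t1
  filter_upwards [hone d hd, ff_bounds, t1.eventually_ge_atTop ((ℓ : ℝ) * d), t1.eventually_ge_atTop 1,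
    t2.eventually_ge_atTop (ℓ + 1 : ℝ), eventually_ge_atTop (4 : ℝ), ev_ff 1 one_pos,
    t1.eventually_ge_atTop ((J : ℝ) + 2), eventually_ge_atTop (2 * (J : ℝ) + 2),
    t1.eventually (Pool.Agent.H378R2.ev_pow_exp (A + 3) (1 / 40) 1 (by norm_num))]
    with X hX hff hLd hL1 hLℓ hX4 hff2 hLJ hXJ hE
  intro h hh Z hZ hZw bad hbad
  have hX0 : 0 < X := by linarith
  have hX1 : 1 ≤ X := by linarith
  have hJ0 : (0 : ℝ) ≤ J := Nat.cast_nonneg J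
  set L := Real.log X with hL
  have hL0 : 0 < L := by linarith
  have hLX : L ≤ X := (Real.log_le_sub_one_of_pos hX0).trans (by linarith)
  have hLL : Real.log L ≤ L := (Real.log_le_sub_one_of_pos hL0).trans (by linarith)
  have hLL0 : 0 < Real.log L := by linarith
  have hffn : 0 ≤ ff X := hff2.2.1
  have hℓne : (ℓ : ℤ) ≠ 0 := by exact_mod_cast hℓ0.ne'
  set E := Real.exp (1 / 40 * L) with hEd
  rw [one_mul] at hE
  have hE0 : 0 < E := Real.exp_pos _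
  have hpowE : X ^ ((1 : ℝ) / 40) = E := by
    rw [hEd, Real.rpow_def_of_pos hX0, ← hL]
    congr 1
    ring
  have e1000 : X ^ (1 / 1000 : ℝ) ≤ E := by
    rw [← hpowE]
    exact Real.rpow_le_rpow_of_exponent_le hX1 (by norm_num)
  have eX : X = E ^ 40 := by
    rw [← hpowE, ← Real.rpow_natCast, ← Real.rpow_mul hX0.le]
    norm_num
  have hLE : ∀ B : ℕ, B ≤ A + 3 → L ^ B ≤ E := fun B hB => (pow_le_pow_right₀ hL1 hB).trans hE
  have hEJ : (J : ℝ) + 2 ≤ E := by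
    have := hLE 1 (by omega)
    rw [pow_one] at this
    linarith
  have hE1 : 1 ≤ E := by linarith
  have hLA : L * (Real.log L) ^ (A + 1) ≤ E := by
    calc L * (Real.log L) ^ (A + 1) ≤ L * L ^ (A + 1) := by gcongr
      _ = L ^ (A + 2) := by ring
      _ ≤ E := hLE _ (by omega)
  have hEX : E ≤ X := by
    rw [eX]
    calc E = E ^ 1 := (pow_one _).symm
      _ ≤ E ^ 40 := pow_le_pow_right₀ hE1 (by norm_num)
  -- the set of multiples
  set I : Finset ℤ := (Icc (-(ℓ : ℤ)) ℓ).filter (fun i => i ≠ 0) with hI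
  have hImem : ∀ i : ℤ, i ∈ I ↔ (|i| ≤ ℓ ∧ i ≠ 0) := by
    intro i
    rw [hI, mem_filter, mem_Icc, abs_le]
  have hIcard : (I.card : ℝ) ≤ 3 * ℓ := by
    have h1 : I.card ≤ (Icc (-(ℓ : ℤ)) ℓ).card := card_le_card (filter_subset _ _)
    rw [Int.card_Icc] at h1
    have h2 : I.card ≤ 3 * ℓ := by omega
    exact_mod_cast h2
  set Z' : Finset ℤ := (I ×ˢ Z).image (fun x => x.1 * x.2) with hZ'
  have hZ'mem : ∀ z ∈ Z', z ≠ 0 ∧ |(z : ℝ)| ≤ L * (Real.log L) ^ (A + 1) := by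
    intro z hz
    rw [hZ', mem_image] at hz
    obtain ⟨⟨i, x⟩, hix, rfl⟩ := hz
    rw [mem_product, hImem] at hix
    obtain ⟨⟨hi1, hi2⟩, hx⟩ := hix
    obtain ⟨hx1, hx2⟩ := hZ x hx
    refine ⟨mul_ne_zero hi2 hx1, ?_⟩
    push_cast
    rw [abs_mul]
    have hi3 : |(i : ℝ)| ≤ ℓ := by exact_mod_cast hi1
    calc |(i : ℝ)| * |(x : ℝ)| ≤ Real.log L * (L * (Real.log L) ^ A) :=
          mul_le_mul (by linarith) hx2 (abs_nonneg _) hLL0.le
      _ = _ := by ring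
  have hZ'w : ∑ z ∈ Z', ((z.natAbs : ℝ) / (z.natAbs.totient : ℝ)) ≤ c₁ * ff X := by
    have h1 := sum_image_le' (I ×ˢ Z) (fun x => x.1 * x.2)
      (fun z : ℤ => ((z.natAbs : ℝ) / (z.natAbs.totient : ℝ))) (fun z => by positivity)
    rw [← hZ', sum_product] at h1
    refine h1.trans ?_
    have h2 : ∀ i ∈ I, ∑ z ∈ Z, (((i * z).natAbs : ℝ) / ((i * z).natAbs.totient : ℝ)) ≤
        ℓ * (c₁ / (3 * ℓ * ℓ) * ff X) := by
      intro i hi
      rw [hImem] at hi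
      have hi3 : |(i : ℝ)| ≤ ℓ := by exact_mod_cast hi.1
      calc ∑ z ∈ Z, (((i * z).natAbs : ℝ) / ((i * z).natAbs.totient : ℝ)) ≤
          ∑ z ∈ Z, ℓ * ((z.natAbs : ℝ) / (z.natAbs.totient : ℝ)) := by
            apply sum_le_sum
            intro z hz
            refine (ratio_mul_le i z hi.2 (hZ z hz).1).trans ?_
            exact mul_le_mul_of_nonneg_right hi3 (by positivity)
        _ = ℓ * ∑ z ∈ Z, ((z.natAbs : ℝ) / (z.natAbs.totient : ℝ)) := (mul_sum _ _ _).symm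
        _ ≤ _ := mul_le_mul_of_nonneg_left hZw (by positivity)
    refine (sum_le_card_nsmul _ _ _ h2).trans ?_
    rw [nsmul_eq_mul]
    calc (I.card : ℝ) * (ℓ * (c₁ / (3 * ℓ * ℓ) * ff X)) ≤ (3 * ℓ) * (ℓ * (c₁ / (3 * ℓ * ℓ) * ff X)) :=
          mul_le_mul_of_nonneg_right hIcard (by positivity)
      _ = c₁ * ff X := by field_simp
  obtain ⟨p, hp, hXp, hp3, hpb, hpd, hmain⟩ := hX (fun z => z) (fun _ => ℓ) (ℓ * d) (mul_ne_zero hℓ0.ne' hd0)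
    (dvd_mul_left _ _)
    ((sum_inv_mul ℓ d hℓ0.ne' hd0).trans (add_le_add (sum_inv_le_self ℓ) (sum_inv_le_self d)))
    (by
      push_cast
      calc (ℓ : ℝ) * d ≤ L := hLd
        _ = L ^ 1 := (pow_one _).symm
        _ ≤ L ^ 2 := pow_le_pow_right₀ hL1 (by norm_num))
    (by
      intro r hr hrg cc hcc
      have hrℓ : ¬ (r : ℤ) ∣ (ℓ : ℤ) := fun h1 => hrg ((Int.natCast_dvd_natCast.1 h1).mul_right _)
      obtain ⟨ρ, hρ⟩ := solve r hr cc ℓ hcc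
      refine ⟨ρ, ?_, ?_⟩
      · intro h1
        apply hrℓ
        have h2 : (r : ℤ) ∣ (ρ : ℤ) := Int.natCast_dvd_natCast.2 h1
        have h3 := dvd_sub hρ (h2.mul_left cc)
        rwa [add_sub_cancel_left] at h3
      · intro z n h1 h2
        have h3 : z * n + (ℓ : ℤ) = (z - cc) * n + cc * (n - ρ) + (cc * ρ + ℓ) := by ring
        show (r : ℤ) ∣ z * n + ℓ
        rw [h3]
        exact dvd_add (dvd_add (h1.mul_right _) (h2.mul_left _)) hρ) h hh bad hbad Z' hZ'mem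
    (fun z hz => ⟨(hZ'mem z hz).1, hℓne⟩)
    (by
      intro z hz
      have hXX : X ≤ X ^ 2 := by nlinarith
      constructor
      · exact ((hZ'mem z hz).2.trans hLA).trans (hEX.trans hXX)
      · have hdr : (1 : ℝ) ≤ d := by exact_mod_cast hd0'
        have h3 : (ℓ : ℝ) ≤ ℓ * d := by nlinarith
        have h4 : |(((ℓ : ℕ) : ℤ) : ℝ)| = ℓ := by
          push_cast
          exact abs_of_nonneg (by positivity)
        rw [h4]
        exact h3.trans (hLd.trans (hLX.trans hXX)))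
    (by
      intro k _ l _ hkl h1
      exact hkl (mul_right_cancel₀ hℓne h1)) hZ'w
  refine ⟨p, hp, hXp, hp3, hpb, hpd, ?_⟩
  intro z hz i j hi1 hiJ hj1 hjJ q hq heq
  have hz0 := (hZ z hz).1
  have hp0 : (0 : ℝ) < p := by linarith
  have hj0 : j ≠ 0 := by
    rintro rfl
    simp at hj1
  have hdivℓ : ∀ x : ℤ, 1 ≤ |x| → |x| ≤ J → x ∣ (ℓ : ℤ) := by
    intro x h1 h2
    rw [Int.abs_eq_natAbs] at h1 h2
    rw [← Int.natAbs_dvd_natAbs, Int.natAbs_natCast, hℓ]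
    apply Nat.dvd_factorial
    · exact_mod_cast h1
    · exact_mod_cast h2
  obtain ⟨j₁, hj₁⟩ := hdivℓ j hj1 hjJ
  have hj₁0 : j₁ ≠ 0 := by
    rintro rfl
    rw [mul_zero] at hj₁
    exact hℓne hj₁
  have hj₁le : |j₁| ≤ (ℓ : ℤ) := by
    rw [Int.abs_eq_natAbs]
    have hdv : j₁ ∣ (ℓ : ℤ) := ⟨j, by rw [hj₁]; ring⟩
    have := Nat.le_of_dvd hℓ0 (Int.natCast_dvd_natCast.1 ((Int.natAbs_dvd).2 hdv))
    exact_mod_cast this
  have hzmem : j₁ * z ∈ Z' := by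
    rw [hZ', mem_image]
    exact ⟨(j₁, z), mem_product.2 ⟨(hImem j₁).2 ⟨hj₁le, hj₁0⟩, hz⟩, rfl⟩
  obtain ⟨r, hr, hrX, hrg, hrd⟩ := hmain _ hzmem
  have hid : j₁ * z * (p : ℤ) + (ℓ : ℤ) = j₁ * i * q := by
    have h1 : j₁ * z * (p : ℤ) = j₁ * (i * q) - j₁ * j := by rw [← heq]; ring
    rw [h1, hj₁]
    ring
  have hrℓ : ¬ (r : ℤ) ∣ (ℓ : ℤ) := fun h1 => hrg ((Int.natCast_dvd_natCast.1 h1).mul_right _)
  have hrd' : (r : ℤ) ∣ j₁ * i * q := by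
    rw [← hid]
    exact hrd
  have hrp := Nat.prime_iff_prime_int.1 hr
  have hrq : r = q := by
    rcases hrp.dvd_mul.1 hrd' with h1 | h1
    · rcases hrp.dvd_mul.1 h1 with h2 | h2
      · exact absurd (h2.trans ⟨j, by rw [hj₁]; ring⟩) hrℓ
      · exact absurd (h2.trans (hdivℓ i hi1 hiJ)) hrℓ
    · exact (Nat.prime_dvd_prime_iff_eq hr hq).1 (by exact_mod_cast h1)
  have hqX : (q : ℝ) ≤ X ^ (1 / 1000 : ℝ) := by rw [← hrq]; exact hrX
  have hiR : |(i : ℝ)| ≤ J := by exact_mod_cast hiJ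
  have hjR : |(j : ℝ)| ≤ J := by exact_mod_cast hjJ
  have hzR : (z : ℝ) * p + j = i * q := by exact_mod_cast heq
  have h1 : |(z : ℝ)| * (p : ℝ) ≤ J * E + J := by
    have h2 : |(z : ℝ)| * (p : ℝ) = |(i : ℝ) * q - j| := by
      rw [← hzR, add_sub_cancel_right, abs_mul, abs_of_pos hp0]
    rw [h2]
    refine (abs_sub _ _).trans ?_
    rw [abs_mul, abs_of_nonneg (Nat.cast_nonneg q : (0 : ℝ) ≤ q)]
    exact add_le_add (mul_le_mul hiR (hqX.trans e1000) (Nat.cast_nonneg q) hJ0) hjR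
  have h2 : (1 : ℝ) ≤ |(z : ℝ)| := by
    have : 1 ≤ |z| := Int.one_le_abs hz0
    exact_mod_cast this
  have h3 : X ≤ J * E + J := by
    calc X ≤ p := hXp.le
      _ ≤ |(z : ℝ)| * p := le_mul_of_one_le_left hp0.le h2
      _ ≤ _ := h1
  have h5 : (J : ℝ) * E + J < E ^ 40 := by
    calc (J : ℝ) * E + J ≤ J * E + J * E := by nlinarith
      _ = 2 * J * E := by ring
      _ < E * E * E := by
        have : 2 * (J : ℝ) < E * E := by nlinarith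
        exact mul_lt_mul_of_pos_right this hE0
      _ = E ^ 3 := by ring
      _ ≤ E ^ 40 := pow_le_pow_right₀ hE1 (by norm_num)
  rw [← eX] at h5
  linarith

/-- arbitrary sets of multipliers, number of primes -/
theorem multipliers (A J d : ℕ) (hd : Squarefree d) : ∃ c : ℝ, 0 < c ∧ ∀ᶠ X : ℝ in atTop, ∀ h : ℕ, h.Coprime d →
    ∀ K : Finset ℕ, (∀ k ∈ K, 1 ≤ k ∧ (k : ℝ) ≤ Real.log X * (Real.log (Real.log X)) ^ A) →
    ∑ k ∈ K, ((k : ℝ) / (k.totient : ℝ)) ≤ c * ff X →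
    X ^ (9 / 10 : ℝ) ≤ ({p : ℕ | p.Prime ∧ X < p ∧ (p : ℝ) ≤ 3 * X ∧ p ≡ h [MOD d] ∧
      ∀ k ∈ K, ∀ i j : ℤ, 1 ≤ |i| → |i| ≤ J → 1 ≤ |j| → |j| ≤ J → ∀ q : ℕ, q.Prime →
        k * p + j ≠ i * q}.ncard : ℝ) := by
  obtain ⟨c, hc, hX⟩ := avoidZ A J d hd
  refine ⟨c, hc, ?_⟩
  filter_upwards [hX] with X hX h hh K hK hKw
  set S := {p : ℕ | p.Prime ∧ X < p ∧ (p : ℝ) ≤ 3 * X ∧ p ≡ h [MOD d] ∧
      ∀ k ∈ K, ∀ i j : ℤ, 1 ≤ |i| → |i| ≤ J → 1 ≤ |j| → |j| ≤ J → ∀ q : ℕ, q.Prime →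
        k * p + j ≠ i * q} with hS
  have hfin : S.Finite := by
    apply (Set.finite_Iic ⌊3 * X⌋₊).subset
    intro p hp
    exact Set.mem_Iic.2 (Nat.le_floor hp.2.2.1)
  by_contra hcon
  push Not at hcon
  rw [Set.ncard_eq_toFinset_card S hfin] at hcon
  obtain ⟨p, hp, hXp, hp3, hpb, hpd, hmain⟩ := hX h hh (K.image (fun k : ℕ => (k : ℤ)))
    (by
      intro z hz
      rw [mem_image] at hz
      obtain ⟨k, hk, rfl⟩ := hz
      obtain ⟨h1, h2⟩ := hK k hk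
      refine ⟨by positivity, ?_⟩
      rw [Int.cast_natCast, abs_of_nonneg (Nat.cast_nonneg k)]
      exact h2)
    (by
      rw [sum_image (fun a _ b _ h => by exact_mod_cast h)]
      simpa using hKw) hfin.toFinset hcon.le
  apply hpb
  rw [Set.Finite.mem_toFinset]
  refine ⟨hp, hXp, hp3, hpd, ?_⟩
  intro k hk i j hi1 hi2 hj1 hj2 q hq
  exact hmain (k : ℤ) (mem_image_of_mem _ hk) i j hi1 hi2 hj1 hj2 q hq

end Pool.Agent.X34.M
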