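import Pool.Agent.X34.M.M3
import Pool.Agent.H674R2.PT.T1

set_option autoImplicit false
set_option maxHeartbeats 4000000

/-! # All multipliers up to the record size and all prime multipliers up to `log log` times this size -/

namespace Pool.Agent.X34.M

open Finset Filter
open Pool.Agent.H256R2.SC (ff)
open Pool.Agent.H312R2.RG (ev_ff)
open Pool.Agent.TH101.RG

theorem ratio_two (k : ℕ) (hk : 1 ≤ k) :
    (((2 * k : ℕ) : ℝ) / ((2 * k).totient : ℝ)) ≤ 2 * ((k : ℝ) / (k.totient : ℝ)) := by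
  have h1 : (0 : ℝ) < k.totient := by exact_mod_cast Nat.totient_pos.2 hk
  have h2 : k.totient ≤ (2 * k).totient :=
    Nat.le_of_dvd (Nat.totient_pos.2 (by omega)) (Nat.totient_dvd_of_dvd (dvd_mul_left _ _))
  have h3 : (k.totient : ℝ) ≤ ((2 * k).totient : ℝ) := by exact_mod_cast h2
  rw [mul_div_assoc', Nat.cast_mul]
  push_cast
  exact div_le_div_of_nonneg_left (by positivity) h1 h3

theorem twoSets (d : ℕ) (hd : Squarefree d) : ∃ c : ℝ, 0 < c ∧ ∀ᶠ X : ℝ in atTop, ∀ h : ℕ, h.Coprime d →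
    X ^ (9 / 10 : ℝ) ≤ ({p : ℕ | p.Prime ∧ X < p ∧ (p : ℝ) ≤ 3 * X ∧ p ≡ h [MOD d] ∧
      (∀ k : ℕ, 1 ≤ k → (k : ℝ) ≤ c * ff p → ¬ (2 * k * p + 1).Prime) ∧
      (∀ k : ℕ, k.Prime → (k : ℝ) ≤ c * (ff p * Real.log (Real.log p)) →
        ¬ (2 * k * p + 1).Prime)}.ncard : ℝ) := by
  obtain ⟨c₀, hc₀, hX₀⟩ := multipliers 4 1 d hd
  obtain ⟨C, hC, hCM⟩ := sum_ratio
  obtain ⟨c₁, hc₁⟩ : ∃ c₁ : ℝ, c₁ = min (c₀ / (2 * C + 16)) (1 / 2) := ⟨_, rfl⟩
  have hc₁0 : 0 < c₁ := by rw [hc₁]; positivity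
  have hc₁1 : c₁ ≤ 1 / 2 := by rw [hc₁]; exact min_le_right _ _
  have hc₁2 : c₁ * (2 * C + 16) ≤ c₀ := by
    have : c₁ ≤ c₀ / (2 * C + 16) := by rw [hc₁]; exact min_le_left _ _
    rwa [le_div_iff₀ (by positivity)] at this
  refine ⟨c₁ / 32, by positivity, ?_⟩
  have t1 := Real.tendsto_log_atTop
  have t2 : Tendsto (fun y : ℝ => Real.log (Real.log y)) atTop atTop := t1.comp t1
  filter_upwards [hX₀, ff_bounds, ff_le, t1.eventually_ge_atTop 2, t2.eventually_ge_atTop 2,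
    t2.eventually_ge_atTop (1 / c₁), eventually_ge_atTop 4] with X hX hff hle hL2 hLL2 hLLc hX4
  intro h hh
  have hX0 : 0 < X := by linarith
  set L := Real.log X with hL
  set ℓ := Real.log L with hℓ
  have hL0 : 0 < L := by linarith
  have hℓ0 : 0 < ℓ := by linarith
  have hffL : L ≤ ff X := hff.1
  have hff0 : 0 < ff X := by linarith
  have hcℓ : 1 ≤ c₁ * ℓ := by
    rw [div_le_iff₀ hc₁0] at hLLc
    linarith
  -- the two sets
  set K1 : Finset ℕ := (Icc 1 ⌊c₁ * ff X⌋₊).image (fun k => 2 * k) with hK1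
  set N : ℕ := ⌊c₁ * (ff X * ℓ)⌋₊ with hN
  set K2 : Finset ℕ := ((Icc 1 N).filter Nat.Prime).image (fun k => 2 * k) with hK2
  have hNle : (N : ℝ) ≤ c₁ * (ff X * ℓ) := Nat.floor_le (by positivity)
  have hffle : ff X * ℓ ≤ L * ℓ ^ 3 := by
    calc ff X * ℓ ≤ (L * ℓ ^ 2) * ℓ := mul_le_mul_of_nonneg_right hff.2 hℓ0.le
      _ = _ := by ring
  have hM1 : (⌊c₁ * ff X⌋₊ : ℝ) ≤ c₁ * ff X := Nat.floor_le (by positivity)
  have hs1 : ∑ k ∈ K1, ((k : ℝ) / (k.totient : ℝ)) ≤ 2 * (C * (c₁ * ff X)) := by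
    rw [hK1, sum_image (fun a _ b _ h => by omega)]
    refine (sum_le_sum fun k hk => ratio_two k (mem_Icc.1 hk).1).trans ?_
    rw [← mul_sum]
    have h1 := hCM ⌊c₁ * ff X⌋₊
    have h2 : C * (⌊c₁ * ff X⌋₊ : ℝ) ≤ C * (c₁ * ff X) := mul_le_mul_of_nonneg_left hM1 hC.le
    linarith
  have hs2 : ∑ k ∈ K2, ((k : ℝ) / (k.totient : ℝ)) ≤ 16 * (c₁ * ff X) := by
    rw [hK2, sum_image (fun a _ b _ h => by omega)]
    have h1 : ∀ k ∈ (Icc 1 N).filter Nat.Prime, (((2 * k : ℕ) : ℝ) / ((2 * k).totient : ℝ)) ≤ 4 := by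
      intro k hk
      rw [mem_filter, mem_Icc] at hk
      refine (ratio_two k hk.1.1).trans ?_
      have h2 : (k.totient : ℝ) = (k : ℝ) - 1 := by
        rw [Nat.totient_prime hk.2, Nat.cast_sub hk.2.one_le]
        norm_num
      have h3 : (2 : ℝ) ≤ k := by exact_mod_cast hk.2.two_le
      rw [h2]
      have h4 : (k : ℝ) / (k - 1) ≤ 2 := by
        rw [div_le_iff₀ (by linarith)]
        linarith
      linarith
    refine (sum_le_card_nsmul _ _ _ h1).trans ?_
    rw [nsmul_eq_mul]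
    have hbig : L ≤ c₁ * (ff X * ℓ) := by
      calc L ≤ ff X := hffL
        _ = ff X * 1 := (mul_one _).symm
        _ ≤ ff X * (c₁ * ℓ) := mul_le_mul_of_nonneg_left hcℓ hff0.le
        _ = _ := by ring
    have h5 := Pool.Agent.H378R2.PT.T1_pi (x := c₁ * (ff X * ℓ)) (by linarith)
    have h6 : (((Icc 1 N).filter Nat.Prime).card : ℝ) ≤ (Nat.primeCounting N : ℝ) := by
      rw [← Nat.primesLE_card_eq_primeCounting]
      have : (Icc 1 N).filter Nat.Prime ⊆ Nat.primesLE N := by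
        intro k hk
        rw [mem_filter, mem_Icc] at hk
        rw [Nat.mem_primesLE]
        exact ⟨hk.1.2, hk.2⟩
      exact_mod_cast card_le_card this
    have h7 : ℓ ≤ Real.log (c₁ * (ff X * ℓ)) := Real.log_le_log hL0 hbig
    have h8 : c₁ * (ff X * ℓ) / Real.log (c₁ * (ff X * ℓ)) ≤ c₁ * ff X := by
      rw [div_le_iff₀ (by linarith)]
      calc c₁ * (ff X * ℓ) = c₁ * ff X * ℓ := by ring
        _ ≤ _ := mul_le_mul_of_nonneg_left h7 (by positivity)
    have h9 : (((Icc 1 N).filter Nat.Prime).card : ℝ) ≤ 4 * (c₁ * ff X) := by linarith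
    linarith
  have hKK := hX h hh (K1 ∪ K2)
    (by
      intro k hk
      rw [mem_union] at hk
      have hbd : 2 * (c₁ * (ff X * ℓ)) ≤ L * ℓ ^ 4 := by
        calc 2 * (c₁ * (ff X * ℓ)) ≤ 1 * (ff X * ℓ) := by
              have : 0 ≤ ff X * ℓ := by positivity
              nlinarith
          _ ≤ L * ℓ ^ 3 := by linarith
          _ ≤ L * ℓ ^ 4 := by
              apply mul_le_mul_of_nonneg_left _ hL0.le
              exact pow_le_pow_right₀ (by linarith) (by norm_num)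
      rcases hk with hk | hk
      · rw [hK1, mem_image] at hk
        obtain ⟨j, hj, rfl⟩ := hk
        rw [mem_Icc] at hj
        refine ⟨by omega, ?_⟩
        have h1 : (j : ℝ) ≤ c₁ * ff X := le_trans (by exact_mod_cast hj.2) hM1
        have h2 : c₁ * ff X ≤ c₁ * (ff X * ℓ) := by
          have : ff X ≤ ff X * ℓ := by nlinarith
          exact mul_le_mul_of_nonneg_left this hc₁0.le
        push_cast
        linarith
      · rw [hK2, mem_image] at hk
        obtain ⟨j, hj, rfl⟩ := hk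
        rw [mem_filter, mem_Icc] at hj
        refine ⟨by omega, ?_⟩
        have h1 : (j : ℝ) ≤ c₁ * (ff X * ℓ) := le_trans (by exact_mod_cast hj.1.2) hNle
        push_cast
        linarith)
    (by
      have h1 := Finset.sum_union_inter (s₁ := K1) (s₂ := K2) (f := fun k : ℕ => ((k : ℝ) / (k.totient : ℝ)))
      have h2 : 0 ≤ ∑ k ∈ K1 ∩ K2, ((k : ℝ) / (k.totient : ℝ)) := sum_nonneg fun _ _ => by positivity
      have h3 : c₁ * (2 * C + 16) * ff X ≤ c₀ * ff X := mul_le_mul_of_nonneg_right hc₁2 hff0.le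
      nlinarith)
  refine hKK.trans ?_
  have hfin : {p : ℕ | p.Prime ∧ X < p ∧ (p : ℝ) ≤ 3 * X ∧ p ≡ h [MOD d] ∧
      (∀ k : ℕ, 1 ≤ k → (k : ℝ) ≤ c₁ / 32 * ff p → ¬ (2 * k * p + 1).Prime) ∧
      (∀ k : ℕ, k.Prime → (k : ℝ) ≤ c₁ / 32 * (ff p * Real.log (Real.log p)) →
        ¬ (2 * k * p + 1).Prime)}.Finite := by
    apply (Set.finite_Iic ⌊3 * X⌋₊).subset
    intro p hp
    exact Set.mem_Iic.2 (Nat.le_floor hp.2.2.1)
  rw [Nat.cast_le]
  refine Set.ncard_le_ncard ?_ hfin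
  rintro p ⟨hp, hXp, hp3, hpd, hmain⟩
  have hfp := hle p hXp.le hp3
  have hp0 : (0 : ℝ) < p := by linarith
  have hlp : Real.log (Real.log p) ≤ 2 * ℓ := by
    have h1 : Real.log p ≤ L * L := by
      have h2 : Real.log p ≤ Real.log (3 * X) := Real.log_le_log hp0 hp3
      rw [Real.log_mul (by norm_num) hX0.ne'] at h2
      have hlog3 : Real.log 3 ≤ 2 := by
        have := Real.log_le_sub_one_of_pos (show (0 : ℝ) < 3 by norm_num)
        linarith
      nlinarith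
    have h3 : 0 < Real.log p := Real.log_pos (by linarith)
    have h4 := Real.log_le_log h3 h1
    rw [Real.log_mul hL0.ne' hL0.ne'] at h4
    linarith
  have hcomp : ∀ k : ℕ, 2 * k ∈ K1 ∪ K2 → ¬ (2 * k * p + 1).Prime := by
    intro k hk hq
    apply hmain (2 * k) hk 1 1 (by norm_num) (by norm_num) (by norm_num) (by norm_num) (2 * k * p + 1) hq
    push_cast
    ring
  refine ⟨hp, hXp, hp3, hpd, ?_, ?_⟩
  · intro k hk1 hk2
    apply hcomp
    rw [mem_union]
    left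
    rw [hK1, mem_image]
    refine ⟨k, ?_, rfl⟩
    rw [mem_Icc]
    refine ⟨hk1, Nat.le_floor ?_⟩
    refine hk2.trans ?_
    have h1 : c₁ / 32 * ff p ≤ c₁ / 32 * (16 * ff X) := mul_le_mul_of_nonneg_left hfp (by positivity)
    have h2 : 0 ≤ c₁ * ff X := by positivity
    linarith
  · intro k hkp hk2
    apply hcomp
    rw [mem_union]
    right
    rw [hK2, mem_image]
    refine ⟨k, ?_, rfl⟩
    rw [mem_filter, mem_Icc]
    refine ⟨⟨hkp.one_le, Nat.le_floor ?_⟩, hkp⟩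
    refine hk2.trans ?_
    have h3 : ff p * Real.log (Real.log p) ≤ (16 * ff X) * (2 * ℓ) := by
      have h4 : 0 ≤ Real.log (Real.log p) := by
        apply Real.log_nonneg
        have h5 : Real.log X ≤ Real.log p := Real.log_le_log hX0 hXp.le
        linarith
      calc ff p * Real.log (Real.log p) ≤ (16 * ff X) * Real.log (Real.log p) :=
            mul_le_mul_of_nonneg_right hfp h4
        _ ≤ _ := mul_le_mul_of_nonneg_left hlp (by positivity)
    calc c₁ / 32 * (ff p * Real.log (Real.log p)) ≤ c₁ / 32 * ((16 * ff X) * (2 * ℓ)) :=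
          mul_le_mul_of_nonneg_left h3 (by positivity)
      _ = c₁ * (ff X * ℓ) := by ring

end Pool.Agent.X34.M
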