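import Pool.Agent.X34.M.M3

set_option autoImplicit false
set_option maxHeartbeats 4000000

/-! # Primes `p` such that `a z^i p + b z^j` has a small prime factor for all `z` of a set of record size -/

namespace Pool.Agent.X34.M

open Finset Filter
open Pool.Agent.H256R2.SC (ff)
open Pool.Agent.H312R2.RG (ev_ff)
open Pool.Agent.TH101.RG

theorem mono_det (i j k l : ℕ) (hij : i ≠ j) (hk : 1 ≤ k) (hl : 1 ≤ l) (h : k ^ i * l ^ j = l ^ i * k ^ j) :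
    k = l := by
  have key : ∀ i j k l : ℕ, i < j → 1 ≤ k → 1 ≤ l → k ^ i * l ^ j = l ^ i * k ^ j → k = l := by
    intro i j k l hij hk hl h
    obtain ⟨e, rfl⟩ : ∃ e, j = i + e := ⟨j - i, by omega⟩
    have he : e ≠ 0 := by omega
    rw [pow_add, pow_add] at h
    have h1 : (k ^ i * l ^ i) * l ^ e = (k ^ i * l ^ i) * k ^ e := by
      calc (k ^ i * l ^ i) * l ^ e = k ^ i * (l ^ i * l ^ e) := by ring
        _ = l ^ i * (k ^ i * k ^ e) := h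
        _ = _ := by ring
    have h2 : 0 < k ^ i * l ^ i := by positivity
    exact (Nat.pow_left_injective he (Nat.eq_of_mul_eq_mul_left h2 h1)).symm
  rcases lt_or_gt_of_ne hij with h1 | h1
  · exact key i j k l h1 hk hl h
  · refine key j i k l h1 hk hl ?_
    rw [mul_comm (k ^ j), mul_comm (l ^ j)]
    exact h.symm

/-- all monomial families at once -/
theorem monoZ (A D E : ℕ) (A₀ : ℝ) (d : ℕ) (hd : Squarefree d) : ∃ c : ℝ, 0 < c ∧ ∀ᶠ X : ℝ in atTop,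
    ∀ a b : ℤ, a ≠ 0 → b ≠ 0 → |(a : ℝ)| ≤ (Real.log X) ^ D → |(b : ℝ)| ≤ (Real.log X) ^ D →
    (a.natAbs : ℝ) ≤ A₀ * (a.natAbs.totient : ℝ) → (b.natAbs : ℝ) ≤ A₀ * (b.natAbs.totient : ℝ) →
    ∀ i j : ℕ, i ≤ E → j ≤ E → ∀ h : ℕ, h.Coprime d →
    ∀ Z : Finset ℤ, (∀ z ∈ Z, z ≠ 0 ∧ |(z : ℝ)| ≤ Real.log X * (Real.log (Real.log X)) ^ A) →
    (∀ k ∈ Z, ∀ l ∈ Z, k ^ i * l ^ j = l ^ i * k ^ j → k = l) →
    ∑ z ∈ Z, ((z.natAbs : ℝ) / (z.natAbs.totient : ℝ)) ≤ c * ff X →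
    ∀ bad : Finset ℕ, (bad.card : ℝ) ≤ X ^ (9 / 10 : ℝ) →
    ∃ p : ℕ, p.Prime ∧ X < p ∧ (p : ℝ) ≤ 3 * X ∧ p ∉ bad ∧ p ≡ h [MOD d] ∧
      ∀ z ∈ Z, ∃ q : ℕ, q.Prime ∧ (q : ℝ) ≤ X ^ (1 / 1000 : ℝ) ∧ ¬ (q : ℤ) ∣ a ∧ ¬ (q : ℤ) ∣ b ∧ ¬ q ∣ d ∧
        (q : ℤ) ∣ a * z ^ i * p + b * z ^ j := by
  have hd0 : d ≠ 0 := hd.ne_zero
  have hd0' : 0 < d := Nat.pos_of_ne_zero hd0
  obtain ⟨c₁, hc₁, hone⟩ := oneZ A (2 * D + 1) (A₀ + A₀ + d)
  refine ⟨c₁, hc₁, ?_⟩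
  have t1 := Real.tendsto_log_atTop
  have t2 : Tendsto (fun y : ℝ => Real.log (Real.log y)) atTop atTop := t1.comp t1
  filter_upwards [hone d hd, t1.eventually_ge_atTop (d : ℝ), t1.eventually_ge_atTop 1,
    t2.eventually_ge_atTop 1, eventually_ge_atTop (4 : ℝ),
    t1.eventually (Pool.Agent.H378R2.ev_pow_exp (D + (A + 1) * E) 1 1 one_pos)]
    with X hX hLd hL1 hL2 hX4 hE
  intro a b ha hb haD hbD haφ hbφ i j hiE hjE h hh Z hZ hZinj hZw bad hbad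
  have hX0 : 0 < X := by linarith
  have hX1 : 1 ≤ X := by linarith
  set L := Real.log X with hL
  have hL0 : 0 < L := by linarith
  have hLL : Real.log L ≤ L := (Real.log_le_sub_one_of_pos hL0).trans (by linarith)
  have hLL0 : 0 < Real.log L := by linarith
  have hE' : L ^ (D + (A + 1) * E) ≤ X := by
    rw [one_mul, one_mul, hL, Real.exp_log hX0] at hE
    exact hE
  have ha' : a.natAbs ≠ 0 := Int.natAbs_ne_zero.2 ha
  have hb' : b.natAbs ≠ 0 := Int.natAbs_ne_zero.2 hb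
  have haR : (a.natAbs : ℝ) = |(a : ℝ)| := by rw [Nat.cast_natAbs, Int.cast_abs]
  have hbR : (b.natAbs : ℝ) = |(b : ℝ)| := by rw [Nat.cast_natAbs, Int.cast_abs]
  have hzle : ∀ z ∈ Z, |(z : ℝ)| ≤ L ^ (A + 1) := by
    intro z hz
    refine (hZ z hz).2.trans ?_
    calc L * (Real.log L) ^ A ≤ L * L ^ A := by gcongr
      _ = L ^ (A + 1) := by ring
  have hbig : ∀ (x z : ℤ) (e : ℕ), |(x : ℝ)| ≤ L ^ D → z ∈ Z → e ≤ E →
      |((x * z ^ e : ℤ) : ℝ)| ≤ X ^ (2 * D + 1) := by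
    intro x z e hx hz he
    push_cast
    rw [abs_mul, abs_pow]
    have h1 : |(z : ℝ)| ^ e ≤ L ^ ((A + 1) * E) := by
      calc |(z : ℝ)| ^ e ≤ (L ^ (A + 1)) ^ e := pow_le_pow_left₀ (abs_nonneg _) (hzle z hz) e
        _ = L ^ ((A + 1) * e) := (pow_mul _ _ _).symm
        _ ≤ _ := pow_le_pow_right₀ hL1 (Nat.mul_le_mul_left _ he)
    calc |(x : ℝ)| * |(z : ℝ)| ^ e ≤ L ^ D * L ^ ((A + 1) * E) :=
          mul_le_mul hx h1 (by positivity) (by positivity)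
      _ = L ^ (D + (A + 1) * E) := (pow_add _ _ _).symm
      _ ≤ X := hE'
      _ = X ^ 1 := (pow_one _).symm
      _ ≤ X ^ (2 * D + 1) := pow_le_pow_right₀ hX1 (by omega)
  have hsum1 : ∑ p ∈ (a.natAbs * b.natAbs * d).primeFactors, (1 : ℝ) / p ≤ A₀ + A₀ + d := by
    refine (sum_inv_mul _ d (mul_ne_zero ha' hb') hd0).trans ?_
    refine add_le_add ((sum_inv_mul _ _ ha' hb').trans (add_le_add ?_ ?_)) (sum_inv_le_self d)
    · exact sum_inv_le_of_totient _ ha' A₀ haφ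
    · exact sum_inv_le_of_totient _ hb' A₀ hbφ
  have hg : (((a.natAbs * b.natAbs * d : ℕ) : ℝ)) ≤ L ^ (2 * D + 1) := by
    push_cast
    rw [haR, hbR]
    calc |(a : ℝ)| * |(b : ℝ)| * d ≤ L ^ D * L ^ D * L := by
          apply mul_le_mul (mul_le_mul haD hbD (abs_nonneg _) (by positivity)) hLd (Nat.cast_nonneg d) (by positivity)
      _ = _ := by ring
  have hndvd : ∀ r : ℕ, ¬ r ∣ a.natAbs * b.natAbs * d → ¬ (r : ℤ) ∣ a ∧ ¬ (r : ℤ) ∣ b ∧ ¬ r ∣ d := by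
    intro r hr
    refine ⟨fun h1 => hr ?_, fun h1 => hr ?_, fun h1 => hr (h1.mul_left _)⟩
    · exact ((Int.natCast_dvd.1 h1).mul_right _).mul_right _
    · exact ((Int.natCast_dvd.1 h1).mul_left _).mul_right _
  obtain ⟨p, hp, hXp, hp3, hpb, hpd, hmain⟩ := hX (fun z => a * z ^ i) (fun z => b * z ^ j)
    (a.natAbs * b.natAbs * d) (mul_ne_zero (mul_ne_zero ha' hb') hd0)
    (dvd_mul_left _ _) hsum1 hg
    (by
      intro r hr hrg cc hcc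
      obtain ⟨hra, hrb, _⟩ := hndvd r hrg
      have hrp := Nat.prime_iff_prime_int.1 hr
      have hac : ¬ (r : ℤ) ∣ a * cc ^ i := by
        intro h1
        rcases hrp.dvd_mul.1 h1 with h2 | h2
        · exact hra h2
        · exact hcc (hrp.dvd_of_dvd_pow h2)
      obtain ⟨ρ, hρ⟩ := solve r hr (a * cc ^ i) (b * cc ^ j) hac
      refine ⟨ρ, ?_, ?_⟩
      · intro h1
        have h2 : (r : ℤ) ∣ (ρ : ℤ) := Int.natCast_dvd_natCast.2 h1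
        have h3 := dvd_sub hρ (h2.mul_left (a * cc ^ i))
        rw [add_sub_cancel_left] at h3
        rcases hrp.dvd_mul.1 h3 with h4 | h4
        · exact hrb h4
        · exact hcc (hrp.dvd_of_dvd_pow h4)
      · intro z n h1 h2
        have e1 : (r : ℤ) ∣ z ^ i - cc ^ i := h1.trans (sub_dvd_pow_sub_pow z cc i)
        have e2 : (r : ℤ) ∣ z ^ j - cc ^ j := h1.trans (sub_dvd_pow_sub_pow z cc j)
        have h3 : a * z ^ i * n + b * z ^ j = a * n * (z ^ i - cc ^ i) + b * (z ^ j - cc ^ j) +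
            a * cc ^ i * (n - ρ) + (a * cc ^ i * ρ + b * cc ^ j) := by ring
        show (r : ℤ) ∣ a * z ^ i * n + b * z ^ j
        rw [h3]
        exact dvd_add (dvd_add (dvd_add (e1.mul_left _) (e2.mul_left _)) (h2.mul_left _)) hρ) h hh bad hbad
    Z hZ
    (fun z hz => ⟨mul_ne_zero ha (pow_ne_zero _ (hZ z hz).1), mul_ne_zero hb (pow_ne_zero _ (hZ z hz).1)⟩)
    (fun z hz => ⟨hbig a z i haD hz hiE, hbig b z j hbD hz hjE⟩)
    (by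
      intro k hk l hl hkl heq
      apply hkl
      have h1 : (a * b) * (k ^ i * l ^ j) = (a * b) * (l ^ i * k ^ j) := by
        linear_combination heq
      exact hZinj k hk l hl (mul_left_cancel₀ (mul_ne_zero ha hb) h1))
    hZw
  refine ⟨p, hp, hXp, hp3, hpb, hpd, fun z hz => ?_⟩
  obtain ⟨q, hq, hqX, hqg, hqd⟩ := hmain z hz
  obtain ⟨h1, h2, h3⟩ := hndvd q hqg
  exact ⟨q, hq, hqX, h1, h2, h3, hqd⟩

/-- for positive indices -/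
theorem mono (A D E : ℕ) (A₀ : ℝ) (d : ℕ) (hd : Squarefree d) : ∃ c : ℝ, 0 < c ∧ ∀ᶠ X : ℝ in atTop,
    ∀ a b : ℤ, a ≠ 0 → b ≠ 0 → |(a : ℝ)| ≤ (Real.log X) ^ D → |(b : ℝ)| ≤ (Real.log X) ^ D →
    (a.natAbs : ℝ) ≤ A₀ * (a.natAbs.totient : ℝ) → (b.natAbs : ℝ) ≤ A₀ * (b.natAbs.totient : ℝ) →
    ∀ i j : ℕ, i ≤ E → j ≤ E → i ≠ j → ∀ h : ℕ, h.Coprime d →
    ∀ Z : Finset ℕ, (∀ z ∈ Z, 1 ≤ z ∧ (z : ℝ) ≤ Real.log X * (Real.log (Real.log X)) ^ A) →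
    ∑ z ∈ Z, ((z : ℝ) / (z.totient : ℝ)) ≤ c * ff X →
    ∀ bad : Finset ℕ, (bad.card : ℝ) ≤ X ^ (9 / 10 : ℝ) →
    ∃ p : ℕ, p.Prime ∧ X < p ∧ (p : ℝ) ≤ 3 * X ∧ p ∉ bad ∧ p ≡ h [MOD d] ∧
      ∀ z ∈ Z, ∃ q : ℕ, q.Prime ∧ (q : ℝ) ≤ X ^ (1 / 1000 : ℝ) ∧ ¬ (q : ℤ) ∣ a ∧ ¬ (q : ℤ) ∣ b ∧ ¬ q ∣ d ∧
        (q : ℤ) ∣ a * z ^ i * p + b * z ^ j := by
  obtain ⟨c, hc, hX⟩ := monoZ A D E A₀ d hd
  refine ⟨c, hc, ?_⟩
  filter_upwards [hX] with X hX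
  intro a b ha hb haD hbD haφ hbφ i j hiE hjE hij h hh Z hZ hZw bad hbad
  obtain ⟨p, hp, hXp, hp3, hpb, hpd, hmain⟩ := hX a b ha hb haD hbD haφ hbφ i j hiE hjE h hh
    (Z.image (fun z : ℕ => (z : ℤ)))
    (by
      intro z hz
      rw [mem_image] at hz
      obtain ⟨k, hk, rfl⟩ := hz
      obtain ⟨h1, h2⟩ := hZ k hk
      refine ⟨by positivity, ?_⟩
      rw [Int.cast_natCast, abs_of_nonneg (Nat.cast_nonneg k)]
      exact h2)
    (by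
      intro k' hk' l' hl' heq
      rw [mem_image] at hk' hl'
      obtain ⟨k, hk, rfl⟩ := hk'
      obtain ⟨l, hl, rfl⟩ := hl'
      have h3 : k ^ i * l ^ j = l ^ i * k ^ j := by exact_mod_cast heq
      rw [mono_det i j k l hij (hZ k hk).1 (hZ l hl).1 h3])
    (by
      rw [sum_image (fun a _ b _ h => by exact_mod_cast h)]
      simpa using hZw) bad hbad
  refine ⟨p, hp, hXp, hp3, hpb, hpd, fun z hz => hmain (z : ℤ) (mem_image_of_mem _ hz)⟩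

end Pool.Agent.X34.M
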