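import Pool.Agent.X34.M.M4
import Pool.Agent.X34.M.M5

set_option autoImplicit false
set_option maxHeartbeats 4000000

/-! # Primes `p` such that `a z^i p + b z^j` is composite for all `z` of a set of record size -/

namespace Pool.Agent.X34.M

open Finset Filter
open Pool.Agent.H256R2.SC (ff)
open Pool.Agent.H312R2.RG (ev_ff)
open Pool.Agent.TH101.RG

/-- the set of all integers up to the record size and all primes up to `log log` times this size -/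
theorem stdset (c₀ : ℝ) (hc₀ : 0 < c₀) : ∃ c₁ : ℝ, 0 < c₁ ∧ ∀ᶠ X : ℝ in atTop, ∃ Z : Finset ℕ,
    (∀ z ∈ Z, 1 ≤ z ∧ (z : ℝ) ≤ Real.log X * (Real.log (Real.log X)) ^ 4) ∧
    ∑ z ∈ Z, ((z : ℝ) / (z.totient : ℝ)) ≤ c₀ * ff X ∧
    ∀ p : ℕ, X < p → (p : ℝ) ≤ 3 * X →
      (∀ k : ℕ, 1 ≤ k → (k : ℝ) ≤ c₁ * ff p → k ∈ Z) ∧
      (∀ k : ℕ, k.Prime → (k : ℝ) ≤ c₁ * (ff p * Real.log (Real.log p)) → k ∈ Z) := by
  obtain ⟨C, hC, hCM⟩ := sum_ratio
  obtain ⟨c₁, hc₁⟩ : ∃ c₁ : ℝ, c₁ = min (c₀ / (C + 8)) (1 / 2) := ⟨_, rfl⟩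
  have hc₁0 : 0 < c₁ := by rw [hc₁]; positivity
  have hc₁1 : c₁ ≤ 1 / 2 := by rw [hc₁]; exact min_le_right _ _
  have hc₁2 : c₁ * (C + 8) ≤ c₀ := by
    have : c₁ ≤ c₀ / (C + 8) := by rw [hc₁]; exact min_le_left _ _
    rwa [le_div_iff₀ (by positivity)] at this
  refine ⟨c₁ / 32, by positivity, ?_⟩
  have t1 := Real.tendsto_log_atTop
  have t2 : Tendsto (fun y : ℝ => Real.log (Real.log y)) atTop atTop := t1.comp t1
  filter_upwards [ff_bounds, ff_le, t1.eventually_ge_atTop 2, t2.eventually_ge_atTop 2,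
    t2.eventually_ge_atTop (1 / c₁), eventually_ge_atTop 4] with X hff hle hL2 hLL2 hLLc hX4
  have hX0 : 0 < X := by linarith
  set L := Real.log X with hL
  set ℓ := Real.log L with hℓ
  have hL0 : 0 < L := by linarith
  have hℓ0 : 0 < ℓ := by linarith
  have hffL : L ≤ ff X := hff.1
  have hff0 : 0 < ff X := by linarith
  have hcℓ : 1 ≤ c₁ * ℓ := by
    rw [div_le_iff₀ hc₁0] at hLLc
    linarith
  set K1 : Finset ℕ := Icc 1 ⌊c₁ * ff X⌋₊ with hK1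
  set N : ℕ := ⌊c₁ * (ff X * ℓ)⌋₊ with hN
  set K2 : Finset ℕ := (Icc 1 N).filter Nat.Prime with hK2
  have hNle : (N : ℝ) ≤ c₁ * (ff X * ℓ) := Nat.floor_le (by positivity)
  have hffle : ff X * ℓ ≤ L * ℓ ^ 3 := by
    calc ff X * ℓ ≤ (L * ℓ ^ 2) * ℓ := mul_le_mul_of_nonneg_right hff.2 hℓ0.le
      _ = _ := by ring
  have hM1 : (⌊c₁ * ff X⌋₊ : ℝ) ≤ c₁ * ff X := Nat.floor_le (by positivity)
  have hs1 : ∑ k ∈ K1, ((k : ℝ) / (k.totient : ℝ)) ≤ C * (c₁ * ff X) := by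
    have h1 := hCM ⌊c₁ * ff X⌋₊
    have h2 : C * (⌊c₁ * ff X⌋₊ : ℝ) ≤ C * (c₁ * ff X) := mul_le_mul_of_nonneg_left hM1 hC.le
    exact h1.trans h2
  have hs2 : ∑ k ∈ K2, ((k : ℝ) / (k.totient : ℝ)) ≤ 8 * (c₁ * ff X) := by
    have h1 : ∀ k ∈ K2, ((k : ℝ) / (k.totient : ℝ)) ≤ 2 := by
      intro k hk
      rw [hK2, mem_filter, mem_Icc] at hk
      have h2 : (k.totient : ℝ) = (k : ℝ) - 1 := by
        rw [Nat.totient_prime hk.2, Nat.cast_sub hk.2.one_le]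
        norm_num
      have h3 : (2 : ℝ) ≤ k := by exact_mod_cast hk.2.two_le
      rw [h2, div_le_iff₀ (by linarith)]
      linarith
    refine (sum_le_card_nsmul _ _ _ h1).trans ?_
    rw [nsmul_eq_mul]
    have hbig : L ≤ c₁ * (ff X * ℓ) := by
      calc L ≤ ff X := hffL
        _ = ff X * 1 := (mul_one _).symm
        _ ≤ ff X * (c₁ * ℓ) := mul_le_mul_of_nonneg_left hcℓ hff0.le
        _ = _ := by ring
    have h5 := Pool.Agent.H378R2.PT.T1_pi (x := c₁ * (ff X * ℓ)) (by linarith)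
    have h6 : ((K2.card : ℕ) : ℝ) ≤ (Nat.primeCounting N : ℝ) := by
      rw [← Nat.primesLE_card_eq_primeCounting]
      have : K2 ⊆ Nat.primesLE N := by
        intro k hk
        rw [hK2, mem_filter, mem_Icc] at hk
        rw [Nat.mem_primesLE]
        exact ⟨hk.1.2, hk.2⟩
      exact_mod_cast card_le_card this
    have h7 : ℓ ≤ Real.log (c₁ * (ff X * ℓ)) := Real.log_le_log hL0 hbig
    have h8 : c₁ * (ff X * ℓ) / Real.log (c₁ * (ff X * ℓ)) ≤ c₁ * ff X := by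
      rw [div_le_iff₀ (by linarith)]
      calc c₁ * (ff X * ℓ) = c₁ * ff X * ℓ := by ring
        _ ≤ _ := mul_le_mul_of_nonneg_left h7 (by positivity)
    have h9 : (K2.card : ℝ) ≤ 4 * (c₁ * ff X) := by linarith
    linarith
  refine ⟨K1 ∪ K2, ?_, ?_, ?_⟩
  · intro k hk
    rw [mem_union] at hk
    have hbd : c₁ * (ff X * ℓ) ≤ L * ℓ ^ 4 := by
      calc c₁ * (ff X * ℓ) ≤ 1 * (ff X * ℓ) := by
            have : 0 ≤ ff X * ℓ := by positivity
            nlinarith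
        _ ≤ L * ℓ ^ 3 := by linarith
        _ ≤ L * ℓ ^ 4 := by
            apply mul_le_mul_of_nonneg_left _ hL0.le
            exact pow_le_pow_right₀ (by linarith) (by norm_num)
    rcases hk with hk | hk
    · rw [hK1, mem_Icc] at hk
      refine ⟨hk.1, ?_⟩
      have h1 : (k : ℝ) ≤ c₁ * ff X := le_trans (by exact_mod_cast hk.2) hM1
      have h2 : c₁ * ff X ≤ c₁ * (ff X * ℓ) := by
        have : ff X ≤ ff X * ℓ := by nlinarith
        exact mul_le_mul_of_nonneg_left this hc₁0.le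
      linarith
    · rw [hK2, mem_filter, mem_Icc] at hk
      refine ⟨hk.1.1, ?_⟩
      have h1 : (k : ℝ) ≤ c₁ * (ff X * ℓ) := le_trans (by exact_mod_cast hk.1.2) hNle
      linarith
  · have h1 := Finset.sum_union_inter (s₁ := K1) (s₂ := K2) (f := fun k : ℕ => ((k : ℝ) / (k.totient : ℝ)))
    have h2 : 0 ≤ ∑ k ∈ K1 ∩ K2, ((k : ℝ) / (k.totient : ℝ)) := sum_nonneg fun _ _ => by positivity
    have h3 : c₁ * (C + 8) * ff X ≤ c₀ * ff X := mul_le_mul_of_nonneg_right hc₁2 hff0.le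
    nlinarith
  · intro p hXp hp3
    have hfp := hle p hXp.le hp3
    have hp0 : (0 : ℝ) < p := by linarith
    have hlp : Real.log (Real.log p) ≤ 2 * ℓ := by
      have h1 : Real.log p ≤ L * L := by
        have h2 : Real.log p ≤ Real.log (3 * X) := Real.log_le_log hp0 hp3
        rw [Real.log_mul (by norm_num) hX0.ne'] at h2
        have hlog3 : Real.log 3 ≤ 2 := by
          have := Real.log_le_sub_one_of_pos (show (0 : ℝ) < 3 by norm_num)
          linarith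
        nlinarith
      have h3 : 0 < Real.log p := Real.log_pos (by linarith)
      have h4 := Real.log_le_log h3 h1
      rw [Real.log_mul hL0.ne' hL0.ne'] at h4
      linarith
    constructor
    · intro k hk1 hk2
      rw [mem_union]
      left
      rw [hK1, mem_Icc]
      refine ⟨hk1, Nat.le_floor ?_⟩
      refine hk2.trans ?_
      have h1 : c₁ / 32 * ff p ≤ c₁ / 32 * (16 * ff X) := mul_le_mul_of_nonneg_left hfp (by positivity)
      have h2 : 0 ≤ c₁ * ff X := by positivity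
      linarith
    · intro k hkp hk2
      rw [mem_union]
      right
      rw [hK2, mem_filter, mem_Icc]
      refine ⟨⟨hkp.one_le, Nat.le_floor ?_⟩, hkp⟩
      refine hk2.trans ?_
      have h3 : ff p * Real.log (Real.log p) ≤ (16 * ff X) * (2 * ℓ) := by
        have h4 : 0 ≤ Real.log (Real.log p) := by
          apply Real.log_nonneg
          have h5 : Real.log X ≤ Real.log p := Real.log_le_log hX0 hXp.le
          linarith
        calc ff p * Real.log (Real.log p) ≤ (16 * ff X) * Real.log (Real.log p) :=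
              mul_le_mul_of_nonneg_right hfp h4
          _ ≤ _ := mul_le_mul_of_nonneg_left hlp (by positivity)
      calc c₁ / 32 * (ff p * Real.log (Real.log p)) ≤ c₁ / 32 * ((16 * ff X) * (2 * ℓ)) :=
            mul_le_mul_of_nonneg_left h3 (by positivity)
        _ = c₁ * (ff X * ℓ) := by ring

/-- monomial families, composite values -/
theorem mono_compZ (A D E : ℕ) (A₀ : ℝ) (d : ℕ) (hd : Squarefree d) : ∃ c : ℝ, 0 < c ∧ ∀ᶠ X : ℝ in atTop,
    ∀ a b : ℤ, a ≠ 0 → b ≠ 0 → |(a : ℝ)| ≤ (Real.log X) ^ D → |(b : ℝ)| ≤ (Real.log X) ^ D →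
    (a.natAbs : ℝ) ≤ A₀ * (a.natAbs.totient : ℝ) → (b.natAbs : ℝ) ≤ A₀ * (b.natAbs.totient : ℝ) →
    ∀ i j : ℕ, i ≤ E → j ≤ E → ∀ h : ℕ, h.Coprime d →
    ∀ Z : Finset ℤ, (∀ z ∈ Z, z ≠ 0 ∧ |(z : ℝ)| ≤ Real.log X * (Real.log (Real.log X)) ^ A) →
    (∀ k ∈ Z, ∀ l ∈ Z, k ^ i * l ^ j = l ^ i * k ^ j → k = l) →
    ∑ z ∈ Z, ((z.natAbs : ℝ) / (z.natAbs.totient : ℝ)) ≤ c * ff X →
    X ^ (9 / 10 : ℝ) ≤ ({p : ℕ | p.Prime ∧ X < p ∧ (p : ℝ) ≤ 3 * X ∧ p ≡ h [MOD d] ∧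
      ∀ z ∈ Z, ¬ (a * z ^ i * p + b * z ^ j).natAbs.Prime}.ncard : ℝ) := by
  obtain ⟨c, hc, hX⟩ := monoZ A D E A₀ d hd
  refine ⟨c, hc, ?_⟩
  have t1 := Real.tendsto_log_atTop
  have t2 : Tendsto (fun y : ℝ => Real.log (Real.log y)) atTop atTop := t1.comp t1
  filter_upwards [hX, t1.eventually_ge_atTop 1, t2.eventually_ge_atTop 1, eventually_ge_atTop (16 : ℝ),
    t1.eventually (Pool.Agent.H378R2.ev_pow_exp (D + (A + 1) * E) (1 / 2) 1 (by norm_num))]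
    with X hX hL1 hL2 hX16 hE
  intro a b ha hb haD hbD haφ hbφ i j hiE hjE h hh Z hZ hZinj hZw
  have hX0 : 0 < X := by linarith
  set L := Real.log X with hL
  have hL0 : 0 < L := by linarith
  have hLL : Real.log L ≤ L := (Real.log_le_sub_one_of_pos hL0).trans (by linarith)
  have hLL0 : 0 < Real.log L := by linarith
  have hsq : Real.exp (1 / 2 * L) = Real.sqrt X := by
    rw [Real.sqrt_eq_rpow, Real.rpow_def_of_pos hX0, ← hL]
    congr 1
    ring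
  have hE' : L ^ (D + (A + 1) * E) ≤ Real.sqrt X := by
    rw [one_mul, hsq] at hE
    exact hE
  have hs4 : 4 ≤ Real.sqrt X := by
    rw [show (4 : ℝ) = Real.sqrt 16 by
      rw [show (16 : ℝ) = 4 ^ 2 by norm_num, Real.sqrt_sq (by norm_num)]]
    exact Real.sqrt_le_sqrt hX16
  have hss : Real.sqrt X * Real.sqrt X = X := Real.mul_self_sqrt hX0.le
  set S := {p : ℕ | p.Prime ∧ X < p ∧ (p : ℝ) ≤ 3 * X ∧ p ≡ h [MOD d] ∧
      ∀ z ∈ Z, ¬ (a * z ^ i * p + b * z ^ j).natAbs.Prime} with hS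
  have hfin : S.Finite := by
    apply (Set.finite_Iic ⌊3 * X⌋₊).subset
    intro p hp
    exact Set.mem_Iic.2 (Nat.le_floor hp.2.2.1)
  by_contra hcon
  push Not at hcon
  rw [Set.ncard_eq_toFinset_card S hfin] at hcon
  obtain ⟨p, hp, hXp, hp3, hpb, hpd, hmain⟩ := hX a b ha hb haD hbD haφ hbφ i j hiE hjE h hh Z hZ hZinj hZw
    hfin.toFinset hcon.le
  apply hpb
  rw [Set.Finite.mem_toFinset]
  refine ⟨hp, hXp, hp3, hpd, fun z hz hprime => ?_⟩
  obtain ⟨q, hq, hqX, -, -, -, hqd⟩ := hmain z hz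
  have h1 : q ∣ (a * z ^ i * p + b * z ^ j).natAbs := Int.natCast_dvd.1 hqd
  have h2 : q = (a * z ^ i * p + b * z ^ j).natAbs :=
    (Nat.prime_dvd_prime_iff_eq hq hprime).1 h1
  have h3 : (q : ℝ) = |(a : ℝ) * (z : ℝ) ^ i * p + b * (z : ℝ) ^ j| := by
    rw [h2, Nat.cast_natAbs]
    push_cast
    rfl
  have hz1 : (1 : ℝ) ≤ |(z : ℝ)| := by
    have : 1 ≤ |z| := Int.one_le_abs (hZ z hz).1
    exact_mod_cast this
  have ha1 : (1 : ℝ) ≤ |(a : ℝ)| := by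
    have : 1 ≤ |a| := Int.one_le_abs ha
    exact_mod_cast this
  have hp0 : (0 : ℝ) < p := by linarith
  have h4 : X ≤ |(a : ℝ) * (z : ℝ) ^ i * p| := by
    rw [abs_mul, abs_mul, abs_of_pos hp0, abs_pow]
    have h5 : (1 : ℝ) ≤ |(z : ℝ)| ^ i := one_le_pow₀ hz1
    calc X ≤ p := hXp.le
      _ = 1 * 1 * p := by ring
      _ ≤ _ := by gcongr
  have h5 : |(b : ℝ) * (z : ℝ) ^ j| ≤ Real.sqrt X := by
    rw [abs_mul, abs_pow]
    have hzle : |(z : ℝ)| ≤ L ^ (A + 1) := by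
      refine (hZ z hz).2.trans ?_
      calc L * (Real.log L) ^ A ≤ L * L ^ A := by gcongr
        _ = L ^ (A + 1) := by ring
    have h6 : |(z : ℝ)| ^ j ≤ L ^ ((A + 1) * E) := by
      calc |(z : ℝ)| ^ j ≤ (L ^ (A + 1)) ^ j := pow_le_pow_left₀ (by positivity) hzle j
        _ = L ^ ((A + 1) * j) := (pow_mul _ _ _).symm
        _ ≤ _ := pow_le_pow_right₀ hL1 (Nat.mul_le_mul_left _ hjE)
    calc |(b : ℝ)| * |(z : ℝ)| ^ j ≤ L ^ D * L ^ ((A + 1) * E) :=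
          mul_le_mul hbD h6 (by positivity) (by positivity)
      _ = L ^ (D + (A + 1) * E) := (pow_add _ _ _).symm
      _ ≤ _ := hE'
  have h6 : X - Real.sqrt X ≤ q := by
    rw [h3]
    have h7 := abs_sub_abs_le_abs_sub ((a : ℝ) * (z : ℝ) ^ i * p) (-(b * (z : ℝ) ^ j))
    rw [abs_neg, sub_neg_eq_add] at h7
    linarith
  have h7 : (q : ℝ) ≤ Real.sqrt X := by
    refine hqX.trans ?_
    rw [Real.sqrt_eq_rpow]
    exact Real.rpow_le_rpow_of_exponent_le (by linarith) (by norm_num)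
  nlinarith

/-- monomial families with positive indices, composite values -/
theorem mono_comp (A D E : ℕ) (A₀ : ℝ) (d : ℕ) (hd : Squarefree d) : ∃ c : ℝ, 0 < c ∧ ∀ᶠ X : ℝ in atTop,
    ∀ a b : ℤ, a ≠ 0 → b ≠ 0 → |(a : ℝ)| ≤ (Real.log X) ^ D → |(b : ℝ)| ≤ (Real.log X) ^ D →
    (a.natAbs : ℝ) ≤ A₀ * (a.natAbs.totient : ℝ) → (b.natAbs : ℝ) ≤ A₀ * (b.natAbs.totient : ℝ) →
    ∀ i j : ℕ, i ≤ E → j ≤ E → i ≠ j → ∀ h : ℕ, h.Coprime d →
    ∀ Z : Finset ℕ, (∀ z ∈ Z, 1 ≤ z ∧ (z : ℝ) ≤ Real.log X * (Real.log (Real.log X)) ^ A) →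
    ∑ z ∈ Z, ((z : ℝ) / (z.totient : ℝ)) ≤ c * ff X →
    X ^ (9 / 10 : ℝ) ≤ ({p : ℕ | p.Prime ∧ X < p ∧ (p : ℝ) ≤ 3 * X ∧ p ≡ h [MOD d] ∧
      ∀ z ∈ Z, ¬ (a * (z : ℤ) ^ i * p + b * (z : ℤ) ^ j).natAbs.Prime}.ncard : ℝ) := by
  obtain ⟨c, hc, hX⟩ := mono_compZ A D E A₀ d hd
  refine ⟨c, hc, ?_⟩
  filter_upwards [hX] with X hX
  intro a b ha hb haD hbD haφ hbφ i j hiE hjE hij h hh Z hZ hZw
  refine (hX a b ha hb haD hbD haφ hbφ i j hiE hjE h hh (Z.image (fun z : ℕ => (z : ℤ)))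
    (by
      intro z hz
      rw [mem_image] at hz
      obtain ⟨k, hk, rfl⟩ := hz
      obtain ⟨h1, h2⟩ := hZ k hk
      refine ⟨by positivity, ?_⟩
      rw [Int.cast_natCast, abs_of_nonneg (Nat.cast_nonneg k)]
      exact h2)
    (by
      intro k' hk' l' hl' heq
      rw [mem_image] at hk' hl'
      obtain ⟨k, hk, rfl⟩ := hk'
      obtain ⟨l, hl, rfl⟩ := hl'
      have h3 : k ^ i * l ^ j = l ^ i * k ^ j := by exact_mod_cast heq
      rw [mono_det i j k l hij (hZ k hk).1 (hZ l hl).1 h3])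
    (by
      rw [sum_image (fun a _ b _ h => by exact_mod_cast h)]
      simpa using hZw)).trans ?_
  rw [Nat.cast_le]
  refine Set.ncard_le_ncard ?_ ?_
  · rintro p ⟨hp, hXp, hp3, hpd, hmain⟩
    exact ⟨hp, hXp, hp3, hpd, fun z hz => hmain (z : ℤ) (mem_image_of_mem _ hz)⟩
  · apply (Set.finite_Iic ⌊3 * X⌋₊).subset
    intro p hp
    exact Set.mem_Iic.2 (Nat.le_floor hp.2.2.1)

end Pool.Agent.X34.M
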