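import Pool.Agent.X34.M.M6

set_option autoImplicit false
set_option maxHeartbeats 4000000

/-! # Two-sided families with an odd exponent -/

namespace Pool.Agent.X34.M

open Finset Filter
open Pool.Agent.H256R2.SC (ff)
open Pool.Agent.TH101.RG

/-- the two-sided version of the standard set -/
theorem stdsetZ (c₀ : ℝ) (hc₀ : 0 < c₀) : ∃ c₁ : ℝ, 0 < c₁ ∧ ∀ᶠ X : ℝ in atTop, ∃ Z : Finset ℤ,
    (∀ z ∈ Z, z ≠ 0 ∧ |(z : ℝ)| ≤ Real.log X * (Real.log (Real.log X)) ^ 4) ∧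
    ∑ z ∈ Z, ((z.natAbs : ℝ) / (z.natAbs.totient : ℝ)) ≤ c₀ * ff X ∧
    ∀ p : ℕ, X < p → (p : ℝ) ≤ 3 * X →
      (∀ k : ℤ, k ≠ 0 → |(k : ℝ)| ≤ c₁ * ff p → k ∈ Z) ∧
      (∀ k : ℤ, k.natAbs.Prime → |(k : ℝ)| ≤ c₁ * (ff p * Real.log (Real.log p)) → k ∈ Z) := by
  obtain ⟨c₁, hc₁, hX⟩ := stdset (c₀ / 2) (by positivity)
  refine ⟨c₁, hc₁, ?_⟩
  filter_upwards [hX] with X hX
  obtain ⟨Z, hZ1, hZ2, hZ3⟩ := hX
  refine ⟨Z.image (fun k : ℕ => (k : ℤ)) ∪ Z.image (fun k : ℕ => -(k : ℤ)), ?_, ?_, ?_⟩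
  · intro z hz
    rw [mem_union, mem_image, mem_image] at hz
    rcases hz with ⟨k, hk, rfl⟩ | ⟨k, hk, rfl⟩
    · obtain ⟨h1, h2⟩ := hZ1 k hk
      refine ⟨by positivity, ?_⟩
      rw [Int.cast_natCast, abs_of_nonneg (Nat.cast_nonneg k)]
      exact h2
    · obtain ⟨h1, h2⟩ := hZ1 k hk
      refine ⟨by omega, ?_⟩
      rw [Int.cast_neg, Int.cast_natCast, abs_neg, abs_of_nonneg (Nat.cast_nonneg k)]
      exact h2
  · have h1 := Finset.sum_union_inter (s₁ := Z.image (fun k : ℕ => (k : ℤ))) (s₂ := Z.image (fun k : ℕ => -(k : ℤ)))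
      (f := fun z : ℤ => ((z.natAbs : ℝ) / (z.natAbs.totient : ℝ)))
    have h2 : 0 ≤ ∑ z ∈ Z.image (fun k : ℕ => (k : ℤ)) ∩ Z.image (fun k : ℕ => -(k : ℤ)),
      ((z.natAbs : ℝ) / (z.natAbs.totient : ℝ)) := sum_nonneg fun _ _ => by positivity
    have h3 : ∑ z ∈ Z.image (fun k : ℕ => (k : ℤ)), ((z.natAbs : ℝ) / (z.natAbs.totient : ℝ)) =
        ∑ z ∈ Z, ((z : ℝ) / (z.totient : ℝ)) := by
      rw [sum_image (fun a _ b _ h => by exact_mod_cast h)]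
      simp
    have h4 : ∑ z ∈ Z.image (fun k : ℕ => -(k : ℤ)), ((z.natAbs : ℝ) / (z.natAbs.totient : ℝ)) =
        ∑ z ∈ Z, ((z : ℝ) / (z.totient : ℝ)) := by
      rw [sum_image (fun a _ b _ h => by
        have : -(a : ℤ) = -(b : ℤ) := h
        omega)]
      simp
    rw [h3, h4] at h1
    linarith
  · intro p hXp hp3
    obtain ⟨h1, h2⟩ := hZ3 p hXp hp3
    have key : ∀ k : ℤ, k.natAbs ∈ Z → k ∈ Z.image (fun k : ℕ => (k : ℤ)) ∪ Z.image (fun k : ℕ => -(k : ℤ)) := by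
      intro k hk
      rw [mem_union, mem_image, mem_image]
      rcases Int.natAbs_eq k with h3 | h3
      · left
        exact ⟨k.natAbs, hk, h3.symm⟩
      · right
        exact ⟨k.natAbs, hk, h3.symm⟩
    have habs : ∀ x : ℤ, ((x.natAbs : ℕ) : ℝ) = |(x : ℝ)| := fun x => by rw [Nat.cast_natAbs, Int.cast_abs]
    constructor
    · intro k hk0 hk1
      exact key k (h1 k.natAbs (Int.natAbs_pos.2 hk0) (by rw [habs]; exact hk1))
    · intro k hkp hk1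
      exact key k (h2 k.natAbs hkp (by rw [habs]; exact hk1))

end Pool.Agent.X34.M
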