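import Pool.Agent.X34.M.M2

set_option autoImplicit false
set_option maxHeartbeats 4000000

/-! # Prime factors of Lucas sequences at prime indices -/

namespace Pool.Agent.X34.M

open Finset Filter
open Pool.Agent.H256R2.SC (ff)

theorem roots (q : ℕ) [Fact q.Prime] (P Q : ℤ) : ∃ α β : AlgebraicClosure (ZMod q),
    α + β = (P : AlgebraicClosure (ZMod q)) ∧ α * β = (Q : AlgebraicClosure (ZMod q)) := by
  obtain ⟨α, hα⟩ := IsAlgClosed.exists_root (Polynomial.X ^ 2 -
    Polynomial.C (P : AlgebraicClosure (ZMod q)) * Polynomial.X + Polynomial.C (Q : AlgebraicClosure (ZMod q)))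
    (by
      have h : (Polynomial.X ^ 2 - Polynomial.C (P : AlgebraicClosure (ZMod q)) * Polynomial.X +
          Polynomial.C (Q : AlgebraicClosure (ZMod q))).degree = 2 := by
        compute_degree!
      rw [h]
      norm_num)
  refine ⟨α, (P : AlgebraicClosure (ZMod q)) - α, by ring, ?_⟩
  rw [Polynomial.IsRoot.def] at hα
  simp only [Polynomial.eval_add, Polynomial.eval_sub, Polynomial.eval_pow, Polynomial.eval_X,
    Polynomial.eval_mul, Polynomial.eval_C] at hα
  linear_combination -hα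

/-- the closed forms -/
theorem closedU {K : Type*} [CommRing K] (P Q : ℤ) (U : ℕ → ℤ) (h0 : U 0 = 0) (h1 : U 1 = 1)
    (h2 : ∀ n, U (n + 2) = P * U (n + 1) - Q * U n) (α β : K) (hs : α + β = (P : K)) (hm : α * β = (Q : K)) (n : ℕ) :
    (U n : K) * (α - β) = α ^ n - β ^ n ∧ (U (n + 1) : K) * (α - β) = α ^ (n + 1) - β ^ (n + 1) := by
  induction n with
  | zero => simp [h0, h1]
  | succ n ih =>
    refine ⟨ih.2, ?_⟩
    rw [h2]
    push_cast
    rw [← hs, ← hm]
    have e1 := ih.1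
    have e2 := ih.2
    linear_combination (α + β) * e2 - α * β * e1

theorem closedV {K : Type*} [CommRing K] (P Q : ℤ) (V : ℕ → ℤ) (h0 : V 0 = 2) (h1 : V 1 = P)
    (h2 : ∀ n, V (n + 2) = P * V (n + 1) - Q * V n) (α β : K) (hs : α + β = (P : K)) (hm : α * β = (Q : K)) (n : ℕ) :
    (V n : K) = α ^ n + β ^ n ∧ (V (n + 1) : K) = α ^ (n + 1) + β ^ (n + 1) := by
  induction n with
  | zero =>
    rw [h0, h1]
    push_cast
    refine ⟨by ring, by rw [← hs]; ring⟩
  | succ n ih =>
    refine ⟨ih.2, ?_⟩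
    rw [h2]
    push_cast
    rw [← hs, ← hm, ih.1, ih.2]
    ring

theorem closedE {K : Type*} [CommRing K] (P Q : ℤ) (U : ℕ → ℤ) (h0 : U 0 = 0) (h1 : U 1 = 1)
    (h2 : ∀ n, U (n + 2) = P * U (n + 1) - Q * U n) (α : K) (hs : α + α = (P : K)) (hm : α * α = (Q : K)) (n : ℕ) :
    (U n : K) * α = n * α ^ n ∧ (U (n + 1) : K) = (n + 1) * α ^ n := by
  induction n with
  | zero => simp [h0, h1]
  | succ n ih =>
    refine ⟨?_, ?_⟩
    · rw [ih.2]
      push_cast
      ring
    · rw [h2]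
      push_cast
      rw [← hs, ← hm, ih.2]
      have e1 := ih.1
      linear_combination (-α) * e1

/-- a prime `q ≠ p` dividing `U (m p)` but not `U m` is `≡ ± 1 (mod p)` -/
theorem rank {p q m : ℕ} (hp : p.Prime) (hq : q.Prime) (hqp : q ≠ p) (P Q : ℤ) (hPQ : IsCoprime P Q)
    (U : ℕ → ℤ) (h0 : U 0 = 0) (h1 : U 1 = 1) (h2 : ∀ n, U (n + 2) = P * U (n + 1) - Q * U n)
    (hd : (q : ℤ) ∣ U (m * p)) (hn : ¬ (q : ℤ) ∣ U m) : (p : ℤ) ∣ (q : ℤ) - 1 ∨ (p : ℤ) ∣ (q : ℤ) + 1 := by
  haveI : Fact q.Prime := ⟨hq⟩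
  haveI : Fact p.Prime := ⟨hp⟩
  obtain ⟨K, hK⟩ : ∃ K, K = AlgebraicClosure (ZMod q) := ⟨_, rfl⟩
  obtain ⟨α, β, hs, hm⟩ := roots q P Q
  haveI : CharP (AlgebraicClosure (ZMod q)) q := inferInstance
  have hd' : (U (m * p) : AlgebraicClosure (ZMod q)) = 0 := (CharP.intCast_eq_zero_iff _ q _).2 hd
  have hn' : (U m : AlgebraicClosure (ZMod q)) ≠ 0 := fun h => hn ((CharP.intCast_eq_zero_iff _ q _).1 h)
  have hm0 : m ≠ 0 := by
    rintro rfl
    apply hn'
    rw [h0]
    simp
  have hmp : m * p ≠ 0 := mul_ne_zero hm0 hp.ne_zero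
  by_cases hab : α = β
  · exfalso
    subst hab
    have hα : α ≠ 0 := by
      rintro rfl
      obtain ⟨u, v, huv⟩ := hPQ
      have h3 : ((u * P + v * Q : ℤ) : AlgebraicClosure (ZMod q)) = 1 := by rw [huv]; simp
      push_cast at h3
      rw [← hs, ← hm] at h3
      simp at h3
    have e1 := (closedE P Q U h0 h1 h2 α hs hm (m * p)).1
    rw [hd', zero_mul] at e1
    have e2 : ((m * p : ℕ) : AlgebraicClosure (ZMod q)) = 0 := by
      rcases mul_eq_zero.1 e1.symm with h | h
      · exact h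
      · exact absurd h (pow_ne_zero _ hα)
    have e3 : q ∣ m * p := (CharP.cast_eq_zero_iff _ q _).1 e2
    have e4 : q ∣ m := by
      rcases (hq.dvd_mul).1 e3 with h | h
      · exact h
      · exact absurd ((Nat.prime_dvd_prime_iff_eq hq hp).1 h) hqp
    have e5 := (closedE P Q U h0 h1 h2 α hs hm m).1
    have e6 : ((m : ℕ) : AlgebraicClosure (ZMod q)) = 0 := (CharP.cast_eq_zero_iff _ q _).2 e4
    rw [e6, zero_mul] at e5
    rcases mul_eq_zero.1 e5 with h | h
    · exact hn' h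
    · exact hα h
  · have hsub : α - β ≠ 0 := sub_ne_zero.2 hab
    have e1 : α ^ (m * p) = β ^ (m * p) := by
      have := (closedU P Q U h0 h1 h2 α β hs hm (m * p)).1
      rw [hd', zero_mul] at this
      exact (sub_eq_zero.1 this.symm)
    have e2 : α ^ m ≠ β ^ m := by
      intro h
      have := (closedU P Q U h0 h1 h2 α β hs hm m).1
      rw [h, sub_self] at this
      rcases mul_eq_zero.1 this with h3 | h3
      · exact hn' h3
      · exact hsub h3
    have hβ : β ≠ 0 := by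
      rintro rfl
      rw [zero_pow hmp] at e1
      exact hab (pow_eq_zero_iff hmp |>.1 e1)
    have hα : α ≠ 0 := by
      rintro rfl
      rw [zero_pow hmp] at e1
      exact hab (pow_eq_zero_iff hmp |>.1 e1.symm).symm
    obtain ⟨δ, hδ⟩ : ∃ δ, δ = (α / β) ^ m := ⟨_, rfl⟩
    have hδ0 : δ ≠ 0 := by
      rw [hδ]
      exact pow_ne_zero _ (div_ne_zero hα hβ)
    have e3 : δ ^ p = 1 := by
      rw [hδ, ← pow_mul, div_pow, e1, div_self (pow_ne_zero _ hβ)]
    have e4 : δ ≠ 1 := by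
      rw [hδ, div_pow]
      intro h
      exact e2 ((div_eq_one_iff_eq (pow_ne_zero _ hβ)).1 h)
    have e5 : orderOf δ = p := orderOf_eq_prime e3 e4
    have hfr : ∀ x : AlgebraicClosure (ZMod q), x ^ q = frobenius (AlgebraicClosure (ZMod q)) q x := fun x => rfl
    have hfP : frobenius (AlgebraicClosure (ZMod q)) q (P : AlgebraicClosure (ZMod q)) = P := map_intCast _ _
    have hfQ : frobenius (AlgebraicClosure (ZMod q)) q (Q : AlgebraicClosure (ZMod q)) = Q := map_intCast _ _
    have hfs : frobenius (AlgebraicClosure (ZMod q)) q α + frobenius (AlgebraicClosure (ZMod q)) q β = P := by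
      rw [← map_add, hs, hfP]
    have hfm : frobenius (AlgebraicClosure (ZMod q)) q α * frobenius (AlgebraicClosure (ZMod q)) q β = Q := by
      rw [← map_mul, hm, hfQ]
    have hkey : (frobenius (AlgebraicClosure (ZMod q)) q α - α) * (frobenius (AlgebraicClosure (ZMod q)) q α - β) = 0 := by
      rw [← hs] at hfs
      rw [← hm] at hfm
      linear_combination (frobenius (AlgebraicClosure (ZMod q)) q α) * hfs - hfm
    rcases mul_eq_zero.1 hkey with h | h
    · left
      have f1 : frobenius (AlgebraicClosure (ZMod q)) q α = α := sub_eq_zero.1 h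
      have f2 : frobenius (AlgebraicClosure (ZMod q)) q β = β := by
        rw [f1, ← hs] at hfs
        exact add_left_cancel hfs
      have f3 : δ ^ q = δ := by
        rw [hδ, ← pow_mul, mul_comm m q, pow_mul, div_pow, hfr, hfr, f1, f2]
      have f4 : δ ^ (q - 1) = 1 := by
        have h5 : δ * δ ^ (q - 1) = δ * 1 := by
          rw [← pow_succ', Nat.sub_add_cancel hq.one_le, f3, mul_one]
        exact mul_left_cancel₀ hδ0 h5
      have f5 := orderOf_dvd_of_pow_eq_one f4
      rw [e5] at f5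
      have h3 : ((q - 1 : ℕ) : ℤ) = (q : ℤ) - 1 := by
        rw [Nat.cast_sub hq.one_le]
        norm_num
      rw [← h3]
      exact Int.natCast_dvd_natCast.2 f5
    · right
      have f1 : frobenius (AlgebraicClosure (ZMod q)) q α = β := sub_eq_zero.1 h
      have f2 : frobenius (AlgebraicClosure (ZMod q)) q β = α := by
        rw [f1, ← hs, add_comm α β] at hfs
        exact add_left_cancel hfs
      have f3 : δ ^ q = δ⁻¹ := by
        rw [hδ, ← pow_mul, mul_comm m q, pow_mul, div_pow, hfr, hfr, f1, f2, ← inv_pow, inv_div]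
      have f4 : δ ^ (q + 1) = 1 := by
        rw [pow_succ, f3, inv_mul_cancel₀ hδ0]
      have f5 := orderOf_dvd_of_pow_eq_one f4
      rw [e5] at f5
      have h3 : ((q + 1 : ℕ) : ℤ) = (q : ℤ) + 1 := by push_cast; ring
      rw [← h3]
      exact Int.natCast_dvd_natCast.2 f5

/-- a prime dividing `V p` but not `P = V 1` is `≡ ± 1 (mod p)` -/
theorem rankV {p q : ℕ} (hp : p.Prime) (hq : q.Prime) (hqp : q ≠ p) (P Q : ℤ) (hPQ : IsCoprime P Q)
    (U V : ℕ → ℤ) (h0 : U 0 = 0) (h1 : U 1 = 1) (h2 : ∀ n, U (n + 2) = P * U (n + 1) - Q * U n)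
    (g0 : V 0 = 2) (g1 : V 1 = P) (g2 : ∀ n, V (n + 2) = P * V (n + 1) - Q * V n)
    (hd : (q : ℤ) ∣ V p) (hn : ¬ (q : ℤ) ∣ P) : (p : ℤ) ∣ (q : ℤ) - 1 ∨ (p : ℤ) ∣ (q : ℤ) + 1 := by
  haveI : Fact q.Prime := ⟨hq⟩
  obtain ⟨α, β, hs, hm⟩ := roots q P Q
  haveI : CharP (AlgebraicClosure (ZMod q)) q := inferInstance
  have hP : (P : AlgebraicClosure (ZMod q)) ≠ 0 := fun h => hn ((CharP.intCast_eq_zero_iff _ q _).1 h)
  have hV : (V p : AlgebraicClosure (ZMod q)) = 0 := (CharP.intCast_eq_zero_iff _ q _).2 hd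
  have e1 := (closedV P Q V g0 g1 g2 α β hs hm p).1
  rw [hV] at e1
  refine rank (m := 2) hp hq hqp P Q hPQ U h0 h1 h2 ?_ ?_
  · rw [← CharP.intCast_eq_zero_iff (AlgebraicClosure (ZMod q)) q]
    have e2 := (closedU P Q U h0 h1 h2 α β hs hm (2 * p)).1
    by_cases hab : α = β
    · exfalso
      subst hab
      have e3 : (2 : AlgebraicClosure (ZMod q)) * α ^ p = 0 := by rw [e1]; ring
      rcases mul_eq_zero.1 e3 with h | h
      · apply hP
        rw [← hs, ← two_mul, h, zero_mul]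
      · have h3 : α = 0 := pow_eq_zero_iff hp.ne_zero |>.1 h
        apply hP
        rw [← hs, h3, add_zero]
    · have h4 : (U (2 * p) : AlgebraicClosure (ZMod q)) * (α - β) = 0 := by
        rw [e2]
        have h5 : α ^ (2 * p) - β ^ (2 * p) = (α ^ p + β ^ p) * (α ^ p - β ^ p) := by ring
        rw [h5, ← e1, zero_mul]
      rcases mul_eq_zero.1 h4 with h | h
      · exact h
      · exact absurd (sub_eq_zero.1 h) hab
  · have h3 : U 2 = P := by
      have := h2 0
      simp only [zero_add] at this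
      rw [this, h0, h1]
      ring
    rw [h3]
    exact hn

end Pool.Agent.X34.M
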