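import Pool.Agent.X34.M.M8

set_option autoImplicit false
set_option maxHeartbeats 4000000

/-! # Fibonacci numbers with prime indices all of whose prime factors are beyond the record size -/

namespace Pool.Agent.X34.M

open Finset Filter
open Pool.Agent.H256R2.SC (ff)

theorem self_dvd {p : ℕ} (hp : p.Prime) (P Q : ℤ) (U : ℕ → ℤ) (h0 : U 0 = 0) (h1 : U 1 = 1)
    (h2 : ∀ n, U (n + 2) = P * U (n + 1) - Q * U n) (hd : (p : ℤ) ∣ U p) : (p : ℤ) ∣ P ^ 2 - 4 * Q := by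
  haveI : Fact p.Prime := ⟨hp⟩
  obtain ⟨α, β, hs, hm⟩ := roots p P Q
  haveI : CharP (AlgebraicClosure (ZMod p)) p := inferInstance
  have hV : (U p : AlgebraicClosure (ZMod p)) = 0 := (CharP.intCast_eq_zero_iff _ p _).2 hd
  have e1 := (closedU P Q U h0 h1 h2 α β hs hm p).1
  rw [hV, zero_mul, ← sub_pow_char] at e1
  have e2 : α - β = 0 := pow_eq_zero_iff hp.ne_zero |>.1 e1.symm
  rw [← CharP.intCast_eq_zero_iff (AlgebraicClosure (ZMod p)) p]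
  push_cast
  rw [← hs, ← hm]
  linear_combination (α - β) * e2

theorem self_dvdV {p : ℕ} (hp : p.Prime) (P Q : ℤ) (V : ℕ → ℤ) (g0 : V 0 = 2) (g1 : V 1 = P)
    (g2 : ∀ n, V (n + 2) = P * V (n + 1) - Q * V n) (hd : (p : ℤ) ∣ V p) : (p : ℤ) ∣ P := by
  haveI : Fact p.Prime := ⟨hp⟩
  obtain ⟨α, β, hs, hm⟩ := roots p P Q
  haveI : CharP (AlgebraicClosure (ZMod p)) p := inferInstance
  have hV : (V p : AlgebraicClosure (ZMod p)) = 0 := (CharP.intCast_eq_zero_iff _ p _).2 hd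
  have e1 := (closedV P Q V g0 g1 g2 α β hs hm p).1
  rw [hV, ← add_pow_char] at e1
  have e2 : α + β = 0 := pow_eq_zero_iff hp.ne_zero |>.1 e1.symm
  rw [← CharP.intCast_eq_zero_iff (AlgebraicClosure (ZMod p)) p, ← hs]
  exact e2

/-- the final form -/
theorem lucas (U V : ℤ → ℤ → ℕ → ℤ) (h0 : ∀ P Q, U P Q 0 = 0) (h1 : ∀ P Q, U P Q 1 = 1)
    (h2 : ∀ P Q n, U P Q (n + 2) = P * U P Q (n + 1) - Q * U P Q n)
    (g0 : ∀ P Q, V P Q 0 = 2) (g1 : ∀ P Q, V P Q 1 = P)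
    (g2 : ∀ P Q n, V P Q (n + 2) = P * V P Q (n + 1) - Q * V P Q n)
    (d : ℕ) (hd : Squarefree d) : ∃ c : ℝ, 0 < c ∧ ∃ X₀ : ℝ, ∀ X : ℝ, X₀ ≤ X →
    ∀ h : ℕ, h.Coprime d →
    X ^ (9 / 10 : ℝ) ≤ ({p : ℕ | p.Prime ∧ X < p ∧ (p : ℝ) ≤ 3 * X ∧ p ≡ h [MOD d] ∧
      (∀ q : ℕ, q.Prime → q ∣ Nat.fib p → c * (p * ff p) < q) ∧
      (∀ q : ℕ, q.Prime → (q : ℤ) ∣ V 1 (-1) p → c * (p * ff p) < q) ∧
      (∀ P Q : ℤ, IsCoprime P Q → ∀ q : ℕ, q.Prime → (q : ℤ) ∣ U P Q p → ¬ (q : ℤ) ∣ P ^ 2 - 4 * Q →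
        c * (p * ff p) < q) ∧
      (∀ P Q : ℤ, IsCoprime P Q → ∀ q : ℕ, q.Prime → (q : ℤ) ∣ V P Q p → ¬ (q : ℤ) ∣ P → c * (p * ff p) < q) ∧
      (∀ P Q : ℤ, IsCoprime P Q → ∀ m q : ℕ, q.Prime → q ≠ p → (q : ℤ) ∣ U P Q (m * p) → ¬ (q : ℤ) ∣ U P Q m →
        c * (p * ff p) < q)}.ncard : ℝ) := by
  obtain ⟨c, hc, hX⟩ := avoid 1 d hd
  obtain ⟨X₀, hX₀⟩ := eventually_atTop.1 (hX.and ff_le)
  refine ⟨c / 48, by positivity, max X₀ 5, fun X hXX h hh => ?_⟩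
  obtain ⟨hX1, hX2⟩ := hX₀ X ((le_max_left _ _).trans hXX)
  have hX4 : 5 ≤ X := (le_max_right _ _).trans hXX
  set S := {p : ℕ | p.Prime ∧ X < p ∧ (p : ℝ) ≤ 3 * X ∧ p ≡ h [MOD d] ∧
      (∀ q : ℕ, q.Prime → q ∣ Nat.fib p → c / 48 * (p * ff p) < q) ∧
      (∀ q : ℕ, q.Prime → (q : ℤ) ∣ V 1 (-1) p → c / 48 * (p * ff p) < q) ∧
      (∀ P Q : ℤ, IsCoprime P Q → ∀ q : ℕ, q.Prime → (q : ℤ) ∣ U P Q p → ¬ (q : ℤ) ∣ P ^ 2 - 4 * Q →
        c / 48 * (p * ff p) < q) ∧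
      (∀ P Q : ℤ, IsCoprime P Q → ∀ q : ℕ, q.Prime → (q : ℤ) ∣ V P Q p → ¬ (q : ℤ) ∣ P →
        c / 48 * (p * ff p) < q) ∧
      (∀ P Q : ℤ, IsCoprime P Q → ∀ m q : ℕ, q.Prime → q ≠ p → (q : ℤ) ∣ U P Q (m * p) → ¬ (q : ℤ) ∣ U P Q m →
        c / 48 * (p * ff p) < q)} with hS
  have hfin : S.Finite := by
    apply (Set.finite_Iic ⌊3 * X⌋₊).subset
    intro p hp
    exact Set.mem_Iic.2 (Nat.le_floor hp.2.2.1)
  by_contra hcon
  push Not at hcon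
  rw [Set.ncard_eq_toFinset_card S hfin] at hcon
  obtain ⟨p, hp, hXp, hp3, hpb, hpd, hmain⟩ := hX1 h hh hfin.toFinset hcon.le
  apply hpb
  rw [Set.Finite.mem_toFinset]
  have hpp : c / 48 * (p * ff p) ≤ c * (X * ff X) := by
    have h1 := hX2 p hXp.le hp3
    have h2 : (0 : ℝ) ≤ p := Nat.cast_nonneg _
    have h3 : (p : ℝ) * ff p ≤ p * (16 * ff X) := mul_le_mul_of_nonneg_left h1 h2
    have h4 : 0 ≤ ff X := by
      by_contra h5
      push Not at h5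
      have h6 := hX2 X le_rfl (by linarith)
      linarith
    have h5 : (p : ℝ) * (16 * ff X) ≤ 3 * X * (16 * ff X) := mul_le_mul_of_nonneg_right hp3 (by positivity)
    calc c / 48 * (p * ff p) ≤ c / 48 * (3 * X * (16 * ff X)) :=
          mul_le_mul_of_nonneg_left (h3.trans h5) (by positivity)
      _ = c * (X * ff X) := by ring
  have hone : ∀ q : ℕ, q.Prime → ((p : ℤ) ∣ (q : ℤ) - 1 ∨ (p : ℤ) ∣ (q : ℤ) + 1) → c / 48 * (p * ff p) < q := by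
    intro q hq hdv
    rcases hdv with hdv | hdv
    · refine hpp.trans_lt (hmain 1 1 (by norm_num) (by simp) (by norm_num) (by simp) q hq ?_ (by simpa using hdv))
      intro h1
      rw [one_mul] at h1
      exact hq.one_lt.ne' (by exact_mod_cast h1)
    · refine hpp.trans_lt (hmain 1 (-1) (by norm_num) (by simp) (by norm_num) (by simp) q hq ?_ (by simpa using hdv))
      intro h1
      rw [one_mul] at h1
      have : (0 : ℤ) ≤ q := Int.natCast_nonneg q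
      omega
  have hm3 : ∀ P Q : ℤ, IsCoprime P Q → ∀ m q : ℕ, q.Prime → q ≠ p → (q : ℤ) ∣ U P Q (m * p) →
      ¬ (q : ℤ) ∣ U P Q m → c / 48 * (p * ff p) < q := by
    intro P Q hPQ m q hq hqp hdv hnd
    exact hone q hq (rank hp hq hqp P Q hPQ (U P Q) (h0 P Q) (h1 P Q) (h2 P Q) hdv hnd)
  have hm1 : ∀ P Q : ℤ, IsCoprime P Q → ∀ q : ℕ, q.Prime → (q : ℤ) ∣ U P Q p → ¬ (q : ℤ) ∣ P ^ 2 - 4 * Q →
      c / 48 * (p * ff p) < q := by
    intro P Q hPQ q hq hdv hnd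
    have hqp : q ≠ p := by
      rintro rfl
      exact hnd (self_dvd hq P Q (U P Q) (h0 P Q) (h1 P Q) (h2 P Q) hdv)
    refine hm3 P Q hPQ 1 q hq hqp (by rwa [one_mul]) ?_
    rw [h1]
    intro h3
    rcases Int.isUnit_iff.1 (isUnit_of_dvd_one h3) with h4 | h4
    · exact hq.one_lt.ne' (by exact_mod_cast h4)
    · have : (0 : ℤ) ≤ q := Int.natCast_nonneg q
      omega
  have hm2 : ∀ P Q : ℤ, IsCoprime P Q → ∀ q : ℕ, q.Prime → (q : ℤ) ∣ V P Q p → ¬ (q : ℤ) ∣ P →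
      c / 48 * (p * ff p) < q := by
    intro P Q hPQ q hq hdv hnd
    have hqp : q ≠ p := by
      rintro rfl
      exact hnd (self_dvdV hq P Q (V P Q) (g0 P Q) (g1 P Q) (g2 P Q) hdv)
    exact hone q hq (rankV hp hq hqp P Q hPQ (U P Q) (V P Q) (h0 P Q) (h1 P Q) (h2 P Q) (g0 P Q) (g1 P Q) (g2 P Q)
      hdv hnd)
  have hp5 : 5 < p := by
    have : (5 : ℝ) < p := by linarith
    exact_mod_cast this
  refine ⟨hp, hXp, hp3, hpd, ?_, ?_, hm1, hm2, hm3⟩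
  · intro q hq hdv
    have hfib : ∀ n, U 1 (-1) n = (Nat.fib n : ℤ) ∧ U 1 (-1) (n + 1) = (Nat.fib (n + 1) : ℤ) := by
      intro n
      induction n with
      | zero => simp [h0, h1]
      | succ n ih =>
        refine ⟨ih.2, ?_⟩
        rw [h2, ih.1, ih.2, Nat.fib_add_two]
        push_cast
        ring
    have hqp : q ≠ p := by
      rintro rfl
      have h3 := self_dvd hq 1 (-1) (U 1 (-1)) (h0 _ _) (h1 _ _) (h2 _ _)
        (by rw [(hfib q).1]; exact Int.natCast_dvd_natCast.2 hdv)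
      norm_num at h3
      have h4 : q ∣ 5 := by exact_mod_cast h3
      have := Nat.le_of_dvd (by norm_num) h4
      omega
    refine hm3 1 (-1) isCoprime_one_left 1 q hq hqp (by rw [one_mul, (hfib p).1]; exact Int.natCast_dvd_natCast.2 hdv) ?_
    rw [h1]
    intro h3
    rcases Int.isUnit_iff.1 (isUnit_of_dvd_one h3) with h4 | h4
    · exact hq.one_lt.ne' (by exact_mod_cast h4)
    · have : (0 : ℤ) ≤ q := Int.natCast_nonneg q
      omega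
  · intro q hq hdv
    refine hm2 1 (-1) isCoprime_one_left q hq hdv ?_
    intro h3
    rcases Int.isUnit_iff.1 (isUnit_of_dvd_one h3) with h4 | h4
    · exact hq.one_lt.ne' (by exact_mod_cast h4)
    · have : (0 : ℤ) ≤ q := Int.natCast_nonneg q
      omega

end Pool.Agent.X34.M
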